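import Pool.Agent.H162R3.SK.Stmts

set_option autoImplicit false

open Set Cardinal

namespace Pool.Agent.H162R3.SK.Asm

open Pool.Agent.H162R3.SK

section basic

variable {X : Type} [TopologicalSpace X]

theorem Cap_mono {T T' A A' : Set (X ⊕ C(X, ℝ))} (hT : T ⊆ T') (hA : A' ⊆ A)
    (h : Cap T' A') : Cap T A := by
  obtain ⟨f, hf, h1, h2, h3, h4⟩ := h
  refine ⟨f, hf, fun x hx => h1 x (hT hx), fun φ hφ => h2 φ (hT hφ),
    fun x => closure_mono (show Pt A' ⊆ Pt A from fun y hy => hA hy) (h3 x), ?_⟩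
  intro x y hxy
  obtain ⟨ψ, hψ, h⟩ := h4 x y hxy
  exact ⟨ψ, hA hψ, h⟩

theorem ev_single (x : X) (φ : C(X, ℝ)) : ev (Finsupp.single x 1) φ = φ x := by
  unfold ev
  rw [Finsupp.sum_single_index]
  · simp
  · simp

theorem ev_zero (φ : C(X, ℝ)) : ev (0 : X →₀ ℝ) φ = 0 := by
  unfold ev; simp

theorem ev_mapDomain (r : X → X) (μ : X →₀ ℝ) (ψ : C(X, ℝ)) (h : ∀ x, ψ (r x) = ψ x) :
    ev (μ.mapDomain r) ψ = ev μ ψ := by
  unfold ev
  rw [Finsupp.sum_mapDomain_index]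
  · simp only [h]
  · intro b; simp
  · intro b m1 m2; ring

theorem ev_sub (μ : X →₀ ℝ) (φ ψ : C(X, ℝ)) : ev μ (φ - ψ) = ev μ φ - ev μ ψ := by
  unfold ev
  rw [← Finsupp.sum_sub]
  refine Finsupp.sum_congr ?_
  intro x _
  simp [mul_sub]

theorem corr_of_ret {A : Set (X ⊕ C(X, ℝ))} {r : X → X} (h : Ret A r) :
    Corr A (fun μ => μ.mapDomain r) := by
  classical
  refine ⟨?_, ?_⟩
  · intro μ x hx
    have := Finsupp.mapDomain_support hx
    simp only [Finset.mem_image] at this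
    obtain ⟨y, _, rfl⟩ := this
    exact h.1 y
  · intro μ ψ hψ
    exact ev_mapDomain r μ ψ (h.2 ψ hψ)

theorem corr_empty : Corr (∅ : Set (X ⊕ C(X, ℝ))) (fun _ => 0) := by
  refine ⟨?_, ?_⟩
  · intro μ x hx
    simp at hx
  · intro μ ψ hψ
    exact absurd hψ (by simp [Fn])

end basic

section chain

variable {X : Type} [TopologicalSpace X] {W : Type} [LinearOrder W]

theorem chain_mono {G : W → Set (X ⊕ C(X, ℝ))} (h1 : ∀ η, (⋃ ζ ∈ Iio η, G ζ) ⊆ G η) :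
    Monotone G := by
  intro a b hab
  rcases hab.eq_or_lt with rfl | h
  · exact subset_rfl
  · exact (subset_biUnion_of_mem (u := fun ζ => G ζ) (show a ∈ Iio b from h)).trans (h1 b)

theorem finite_sub {G : W → Set (X ⊕ C(X, ℝ))} (hm : Monotone G) (S : Set W) (hS : S.Nonempty)
    {T : Set (X ⊕ C(X, ℝ))} (hT : T ⊆ ⋃ ζ ∈ S, G ζ) (hf : T.Finite) : ∃ ζ ∈ S, T ⊆ G ζ := by
  induction T, hf using Set.Finite.induction_on with
  | empty => obtain ⟨s, hs⟩ := hS; exact ⟨s, hs, empty_subset _⟩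
  | @insert a s _ _ ih =>
    obtain ⟨ζ, hζ, h⟩ := ih ((subset_insert _ _).trans hT)
    have ha := hT (mem_insert a s)
    simp only [mem_iUnion] at ha
    obtain ⟨ξ, hξ, ha⟩ := ha
    rcases le_total ζ ξ with hle | hle
    · exact ⟨ξ, hξ, insert_subset ha (h.trans (hm hle))⟩
    · exact ⟨ζ, hζ, insert_subset (hm hle ha) h⟩

theorem mulc_union {G : W → Set (X ⊕ C(X, ℝ))} (hm : Monotone G) (S : Set W) (hS : S.Nonempty)
    (h : ∀ η, Mulc (G η)) : Mulc (⋃ ζ ∈ S, G ζ) := by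
  refine ⟨?_, ?_⟩
  · obtain ⟨s, hs⟩ := hS
    exact mem_biUnion (t := fun ζ => G ζ) hs (h s).1
  · intro φ hφ ψ hψ
    have h1 : Sum.inr φ ∈ ⋃ ζ ∈ S, G ζ := hφ
    have h2 : Sum.inr ψ ∈ ⋃ ζ ∈ S, G ζ := hψ
    simp only [mem_iUnion] at h1 h2
    obtain ⟨a, ha, h1⟩ := h1
    obtain ⟨b, hb, h2⟩ := h2
    rcases le_total a b with hle | hle
    · exact mem_biUnion (t := fun ζ => G ζ) hb ((h b).2 φ (hm hle h1) ψ h2)
    · exact mem_biUnion (t := fun ζ => G ζ) ha ((h a).2 φ h1 ψ (hm hle h2))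

end chain

/-- the induction statement -/
def PP (X : Type) [TopologicalSpace X] (κ : Cardinal.{0}) : Prop :=
  ∀ B : Set (X ⊕ C(X, ℝ)), #B ≤ κ → ∃ G : Set (X ⊕ C(X, ℝ)), B ⊆ G ∧ #G ≤ κ ∧ Good G ∧
    ∃ (I : Type) (m : I → X →₀ ℝ), Fam G I m

theorem step_common (hStep : TaskStep) (hChain : TaskChain)
    (X : Type) [TopologicalSpace X] [CompactSpace X] [T2Space X] (hSW : SW X)
    (κ : Cardinal.{0}) (hκ : ℵ₀ ≤ κ) (Q : Set (X ⊕ C(X, ℝ)) → Set (X ⊕ C(X, ℝ)) → Prop)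
    (C : Type → Prop)
    (hQ : ∀ B : Set (X ⊕ C(X, ℝ)), #B ≤ κ → ∃ G : Set (X ⊕ C(X, ℝ)), B ⊆ G ∧ #G ≤ κ ∧ Q B G)
    (hMulc : ∀ B G, Q B G → Mulc G)
    (hCap : ∀ B G, Q B G → ∀ T ⊆ B, T.Countable → Cap T G)
    (hFam : ∀ B G, Q B G → #G ≤ κ → ∃ (I : Type) (m : I → X →₀ ℝ), Fam G I m ∧ C I)
    (hCorr : ∀ (W : Type) [LinearOrder W] [WellFoundedLT W] (G : W → Set (X ⊕ C(X, ℝ))),
      (∀ η, (⋃ ζ ∈ Iio η, G ζ) ⊆ G η) → (∀ η, ∃ B, Q B (G η)) →
      ∀ η, (Iio η).Nonempty → ∀ (I : Type) (m : I → X →₀ ℝ), Fam (G η) I m → C I →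
        ∃ r : X → X, Ret (⋃ ζ ∈ Iio η, G ζ) r ∧
          ∀ φ : C(X, ℝ), {i | ev ((m i).mapDomain r) φ ≠ 0}.Countable) :
    PP X (Order.succ κ) := by
  classical
  intro B hB
  obtain ⟨W, _, _, G, D, hG, hcard, hBG, hcU, hcount⟩ := hChain _ κ hκ Q hQ B hB
  have h1 : ∀ η, (⋃ ζ ∈ Iio η, G ζ) ⊆ G η := fun η => (hG η).1.trans (hG η).2.1
  have hm := chain_mono h1
  have h2 : ∀ η, Mulc (G η) := fun η => hMulc _ _ (hG η).2.2
  have h3 : ∀ η, ∀ T ⊆ ⋃ ζ ∈ Iio η, G ζ, T.Countable → Cap T (G η) :=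
    fun η T hT hc => hCap _ _ (hG η).2.2 T (hT.trans (hG η).1) hc
  have h4 := fun η => hFam _ _ (hG η).2.2 (hcard η)
  choose I m hF hF2 using h4
  have h5 : ∀ η, ∃ R : (X →₀ ℝ) → (X →₀ ℝ), Corr (⋃ ζ ∈ Iio η, G ζ) R ∧
      ∀ φ : C(X, ℝ), {i | ev (R (m η i)) φ ≠ 0}.Countable := by
    intro η
    by_cases hne : (Iio η).Nonempty
    · obtain ⟨r, hr, hr2⟩ := hCorr W G h1 (fun η => ⟨D η, (hG η).2.2⟩) η hne
        (I η) (m η) (hF η) (hF2 η)
      exact ⟨fun μ => μ.mapDomain r, corr_of_ret hr, hr2⟩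
    · rw [not_nonempty_iff_eq_empty] at hne
      refine ⟨fun _ => 0, ?_, ?_⟩
      · rw [hne]
        simp only [mem_empty_iff_false, iUnion_of_empty, iUnion_empty]
        exact corr_empty
      · intro φ
        simp [ev_zero]
  choose R hR hR2 using h5
  have hfin := hStep X hSW W G h1 h2 h3 I m hF R hR hR2
  obtain ⟨η0, -⟩ := hcount ∅ (empty_subset _) countable_empty
  refine ⟨⋃ η, G η, hBG, hcU, ⟨?_, ?_⟩, _, _, hfin⟩
  · have := mulc_union hm univ ⟨η0, mem_univ _⟩ h2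
    simpa using this
  · intro T hT hc
    obtain ⟨η, hη⟩ := hcount T hT hc
    exact Cap_mono subset_rfl (subset_iUnion G η) (h3 η T hη hc)

theorem pp_one (hSt : TaskStep) (hCh : TaskChain) (hBase : TaskBase) (hRet : TaskRet)
    (X : Type) [TopologicalSpace X] [CompactSpace X] [T2Space X] (hSW : SW X)
    (hcap : ∀ S : Set (X ⊕ C(X, ℝ)), S.Countable →
      ∃ S' : Set (X ⊕ C(X, ℝ)), S ⊆ S' ∧ S'.Countable ∧ Cap S S') :
    PP X (Order.succ ℵ₀) := by
  classical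
  refine step_common hSt hCh X hSW ℵ₀ le_rfl
    (fun B G => Cap B G ∧ Mulc G ∧ ∀ T ⊆ G, T.Finite → Cap T G) Countable ?_ ?_ ?_ ?_ ?_
  · intro B hB
    obtain ⟨G, hBG, hGc, hG1, hG2, hG3⟩ := hBase X hcap B (Cardinal.mk_le_aleph0_iff.1 hB)
    exact ⟨G, hBG, Cardinal.mk_le_aleph0_iff.2 hGc, hG2, hG1, hG3⟩
  · intro B G h
    exact h.2.1
  · intro B G h T hT _
    exact Cap_mono hT subset_rfl h.1
  · intro B G h hc
    have hGc : G.Countable := Cardinal.mk_le_aleph0_iff.1 hc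
    have hPc : (Pt G).Countable := hGc.preimage Sum.inl_injective
    have : Countable (Pt G) := hPc.to_subtype
    refine ⟨Pt G, fun x => Finsupp.single (x : X) 1, ⟨?_, ?_, ?_⟩, inferInstance⟩
    · intro i x hx
      have := Finsupp.support_single_subset hx
      simp only [Finset.mem_singleton] at this
      rw [this]
      exact subset_closure i.2
    · intro φ
      exact Set.to_countable _
    · intro φ hφ x hx
      have := hφ ⟨x, hx⟩
      rwa [ev_single] at this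
  · intro W _ _ G h1 hG η hne I m hF hI
    have hm := chain_mono h1
    obtain ⟨r, hr⟩ := hRet X (⋃ ζ ∈ Iio η, G ζ) (by
      intro T hT hf
      obtain ⟨ζ, hζ, hTζ⟩ := finite_sub hm (Iio η) hne hT hf
      obtain ⟨B, hQ⟩ := hG ζ
      exact Cap_mono subset_rfl
        (subset_biUnion_of_mem (u := fun ζ => G ζ) hζ) (hQ.2.2 T hTζ hf))
    exact ⟨r, hr, fun φ => Set.to_countable _⟩

theorem pp_succ (hSt : TaskStep) (hCh : TaskChain) (hRet : TaskRet) (hGN : TaskGN)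
    (hUN : TaskUN)
    (X : Type) [TopologicalSpace X] [CompactSpace X] [T2Space X] (hSW : SW X)
    (κ : Cardinal.{0}) (hκ : ℵ₀ ≤ κ) (hP : PP X κ) : PP X (Order.succ κ) := by
  classical
  refine step_common hSt hCh X hSW κ hκ
    (fun B G => B ⊆ G ∧ Good G ∧ ∃ (I : Type) (m : I → X →₀ ℝ), Fam G I m)
    (fun _ => True) ?_ ?_ ?_ ?_ ?_
  · intro B hB
    obtain ⟨G, hBG, hGc, hG1, hG2⟩ := hP B hB
    exact ⟨G, hBG, hGc, hBG, hG1, hG2⟩
  · intro B G h
    exact h.2.1.1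
  · intro B G h T hT hc
    exact h.2.1.2 T (hT.trans h.1) hc
  · intro B G h _
    obtain ⟨I, m, h⟩ := h.2.2
    exact ⟨I, m, h, trivial⟩
  · intro W _ _ G h1 hG η hne I m hF _
    have hm := chain_mono h1
    have hgood : ∀ ζ, Good (G ζ) := fun ζ => (hG ζ).choose_spec.2.1
    have hnice : Nice (⋃ ζ ∈ Iio η, G ζ) := by
      have hN : ∀ A : Set (X ⊕ C(X, ℝ)), Good A → Nice A := fun A hA =>
        hGN X hSW A hA (hRet X A fun T hT hf => hA.2 T hT hf.countable)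
      by_cases hcof : ∃ C : Set W, C.Countable ∧ C ⊆ Iio η ∧ ∀ ζ < η, ∃ c ∈ C, ζ ≤ c
      · obtain ⟨C, hC, hCη, hcof⟩ := hcof
        have heq : (⋃ ζ ∈ Iio η, G ζ) = ⋃₀ (G '' C) := by
          apply subset_antisymm
          · intro x hx
            simp only [mem_iUnion] at hx
            obtain ⟨ζ, hζ, hx⟩ := hx
            obtain ⟨c, hc, hle⟩ := hcof ζ hζ
            exact ⟨G c, mem_image_of_mem _ hc, hm hle hx⟩
          · rintro x ⟨_, ⟨c, hc, rfl⟩, hx⟩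
            exact mem_biUnion (t := fun ζ => G ζ) (hCη hc) hx
        rw [heq]
        apply hUN X (G '' C) (hC.image _)
        · obtain ⟨ζ, hζ⟩ := hne
          obtain ⟨c, hc, _⟩ := hcof ζ hζ
          exact ⟨_, mem_image_of_mem _ hc⟩
        · rintro _ ⟨a, ha, rfl⟩ _ ⟨b, hb, rfl⟩
          rcases le_total a b with hle | hle
          · exact ⟨G b, mem_image_of_mem _ hb, hm hle, subset_rfl⟩
          · exact ⟨G a, mem_image_of_mem _ ha, subset_rfl, hm hle⟩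
        · rintro _ ⟨a, ha, rfl⟩
          exact hN _ (hgood a)
      · apply hN
        refine ⟨mulc_union hm _ hne fun ζ => (hgood ζ).1, ?_⟩
        intro T hT hc
        push Not at hcof
        have hT' : ∀ t : T, ∃ ζ, ζ < η ∧ (t : X ⊕ C(X, ℝ)) ∈ G ζ := by
          intro t
          have := hT t.2
          simp only [mem_iUnion] at this
          obtain ⟨ζ, hζ, h⟩ := this
          exact ⟨ζ, hζ, h⟩
        choose c hc1 hc2 using hT'
        have := hc.to_subtype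
        obtain ⟨ζ, hζ, hlt⟩ := hcof (range c) (countable_range c) (by
          rintro _ ⟨t, rfl⟩; exact hc1 t)
        have hTζ : T ⊆ G ζ := fun t ht => hm (hlt _ ⟨⟨t, ht⟩, rfl⟩).le (hc2 ⟨t, ht⟩)
        exact Cap_mono subset_rfl
          (subset_biUnion_of_mem (u := fun ζ => G ζ) hζ) ((hgood ζ).2 T hTζ hc)
    obtain ⟨r, hr, hr2⟩ := hnice
    refine ⟨r, hr, fun φ => ?_⟩
    obtain ⟨Φ, hΦ, hΦ2⟩ := hr2 φ
    have : {i | ev ((m i).mapDomain r) φ ≠ 0} ⊆ ⋃ ψ ∈ Φ, {i | ev (m i) ψ ≠ 0} := by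
      intro i hi
      by_contra hcon
      simp only [mem_iUnion, not_exists, mem_ofPred_eq, ne_eq, not_not] at hcon
      exact hi (hΦ2 (m i) hcon)
    exact (hΦ.biUnion fun ψ _ => hF.2.1 ψ).mono this

theorem pp_all (hSt : TaskStep) (hCh : TaskChain) (hBase : TaskBase) (hRet : TaskRet)
    (hGN : TaskGN) (hUN : TaskUN)
    (X : Type) [TopologicalSpace X] [CompactSpace X] [T2Space X] (hSW : SW X)
    (hcap : ∀ S : Set (X ⊕ C(X, ℝ)), S.Countable →
      ∃ S' : Set (X ⊕ C(X, ℝ)), S ⊆ S' ∧ S'.Countable ∧ Cap S S') (n : ℕ) :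
    PP X (ℵ_ ((n : Ordinal) + 1)) := by
  induction n with
  | zero =>
    have h : ℵ_ (((0 : ℕ) : Ordinal) + 1) = Order.succ ℵ₀ := by
      rw [← Cardinal.succ_aleph, Nat.cast_zero, Cardinal.aleph_zero]
    rw [h]
    exact pp_one hSt hCh hBase hRet X hSW hcap
  | succ n ih =>
    have h : ℵ_ (((n + 1 : ℕ) : Ordinal) + 1) = Order.succ (ℵ_ ((n : Ordinal) + 1)) := by
      rw [Cardinal.succ_aleph]
      simp
    rw [h]
    exact pp_succ hSt hCh hRet hGN hUN X hSW _ (Cardinal.aleph0_le_aleph _) ih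

/-- assembly -/
theorem assemble (hTight : TaskTight) (hCapT : TaskCap) (hBase : TaskBase) (hSWT : TaskSW)
    (hRet : TaskRet) (hGN : TaskGN) (hUN : TaskUN) (hSt : TaskStep) (hCh : TaskChain)
    (hDens : TaskDens) (X : Type) [TopologicalSpace X] [CompactSpace X] [T2Space X]
    (hS : Sok X) (D : Set X) (hD : Dense D) (hDc : #D ≤ ℵ_ Ordinal.omega0) :
    ∃ (κ : Type) (Φ : {g : X → ℝ // Continuous g} → (κ → ℝ)),
        Continuous Φ ∧ Function.Injective Φ ∧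
          ∀ g, (Function.support (Φ g)).Countable := by
  classical
  have hSW : SW X := hSWT X (hTight X hS)
  have hP := pp_all hSt hCh hBase hRet hGN hUN X hSW (hCapT X hS)
  obtain ⟨E, hE, hEc⟩ := hDens X D hDc
  have h1 : ∀ n : ℕ, ∃ G : Set (X ⊕ C(X, ℝ)), Sum.inl '' E n ⊆ G ∧
      ∃ (I : Type) (m : I → X →₀ ℝ), Fam G I m := by
    intro n
    obtain ⟨G, hG, -, -, h⟩ := hP n (Sum.inl '' E n) (Cardinal.mk_image_le.trans (hEc n))
    exact ⟨G, hG, h⟩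
  choose G hG I m hF using h1
  refine ⟨Σ n, I n, fun g p => ev (m p.1 p.2) ⟨g.1, g.2⟩, ?_, ?_, ?_⟩
  · apply continuous_pi
    rintro ⟨n, i⟩
    unfold ev Finsupp.sum
    refine continuous_finsetSum _ fun x _ => ?_
    refine continuous_const.mul ?_
    exact (continuous_apply x).comp continuous_subtype_val
  · intro g h hgh
    have hx : ∀ x ∈ D, g.1 x = h.1 x := by
      intro x hx
      rw [hE] at hx
      simp only [mem_iUnion] at hx
      obtain ⟨n, hn⟩ := hx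
      have := (hF n).2.2 (⟨g.1, g.2⟩ - ⟨h.1, h.2⟩) (by
        intro i
        rw [ev_sub]
        have := congrFun hgh ⟨n, i⟩
        simp only at this
        rw [this, sub_self]) x (hG n ⟨x, hn, rfl⟩)
      simpa [sub_eq_zero] using this
    apply Subtype.ext
    exact Continuous.ext_on hD g.2 h.2 hx
  · intro g
    have : Function.support (fun p : (Σ n, I n) => ev (m p.1 p.2) ⟨g.1, g.2⟩) ⊆
        ⋃ n, Sigma.mk n '' {i | ev (m n i) ⟨g.1, g.2⟩ ≠ 0} := by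
      rintro ⟨n, i⟩ hp
      simp only [mem_iUnion]
      exact ⟨n, i, hp, rfl⟩
    exact (countable_iUnion fun n => ((hF n).2.1 _).image _).mono this

end Pool.Agent.H162R3.SK.Asm
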