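import Pool.Agent.H162R3.SK.Stmts

set_option autoImplicit false

open Set

namespace Pool.Agent.H162R3.SK.Base106

open Pool.Agent.H162R3.SK

variable {X : Type} [TopologicalSpace X]

theorem cap_mono {T T' A A' : Set (X ⊕ C(X, ℝ))} (hT : T ⊆ T') (hA : A' ⊆ A)
    (h : Cap T' A') : Cap T A := by
  obtain ⟨f, h1, h2, h3, h4, h5⟩ := h
  refine ⟨f, h1, fun x hx => h2 x (hT hx), fun φ hφ => h3 φ (hT hφ), fun x => ?_, fun x y hxy => ?_⟩
  · exact closure_mono (show Pt A' ⊆ Pt A from fun z hz => hA hz) (h4 x)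
  · obtain ⟨ψ, hψ, hne⟩ := h5 x y hxy
    exact ⟨ψ, hA hψ, hne⟩

/-- closing off under products -/
def cls (S : Set (X ⊕ C(X, ℝ))) : Set (X ⊕ C(X, ℝ)) :=
  S ∪ {Sum.inr 1} ∪ Set.image2 (fun φ ψ => Sum.inr (φ * ψ)) (Fn S) (Fn S)

theorem cls_countable {S : Set (X ⊕ C(X, ℝ))} (hS : S.Countable) : (cls S).Countable := by
  have hF : (Fn S).Countable := hS.preimage Sum.inr_injective
  exact (hS.union (countable_singleton _)).union (hF.image2 hF _)

theorem T : TaskBase := by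
  intro X _ _ _ h B hB
  choose! nx hn1 hn2 hn3 using h
  let G : ℕ → Set (X ⊕ C(X, ℝ)) := fun n => Nat.rec B (fun _ S => nx (cls S)) n
  have hG0 : G 0 = B := rfl
  have hGs : ∀ n, G (n + 1) = nx (cls (G n)) := fun _ => rfl
  have hcount : ∀ n, (G n).Countable := by
    intro n
    induction n with
    | zero => exact hB
    | succ n ih =>
      rw [hGs]
      exact hn2 _ (cls_countable ih)
  have hcls : ∀ n, cls (G n) ⊆ G (n + 1) := by
    intro n
    rw [hGs]
    exact hn1 _ (cls_countable (hcount n))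
  have hstep : ∀ n, G n ⊆ G (n + 1) := fun n x hx => hcls n (Or.inl (Or.inl hx))
  have hmono : Monotone G := monotone_nat_of_le_succ hstep
  have hcap : ∀ n, Cap (G n) (⋃ k, G k) := by
    intro n
    have h1 : Cap (cls (G n)) (G (n + 1)) := by
      rw [hGs]
      exact hn3 _ (cls_countable (hcount n))
    exact cap_mono (fun x hx => Or.inl (Or.inl hx)) (subset_iUnion G (n + 1)) h1
  refine ⟨⋃ n, G n, ?_, countable_iUnion hcount, ⟨?_, ?_⟩, ?_, ?_⟩
  · rw [← hG0]
    exact subset_iUnion G 0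
  · exact mem_iUnion.2 ⟨1, hcls 0 (Or.inl (Or.inr rfl))⟩
  · intro φ hφ ψ hψ
    obtain ⟨n, hn⟩ := mem_iUnion.1 hφ
    obtain ⟨m, hm⟩ := mem_iUnion.1 hψ
    refine mem_iUnion.2 ⟨max n m + 1, hcls _ (Or.inr ⟨φ, ?_, ψ, ?_, rfl⟩)⟩
    · exact hmono (le_max_left n m) hn
    · exact hmono (le_max_right n m) hm
  · have := hcap 0
    rwa [hG0] at this
  · intro T hT hfin
    have h1 : ∃ n, T ⊆ G n := by
      have hch : ∀ x : X ⊕ C(X, ℝ), ∃ n, x ∈ T → x ∈ G n := by
        intro x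
        by_cases hx : x ∈ T
        · obtain ⟨n, hn⟩ := mem_iUnion.1 (hT hx)
          exact ⟨n, fun _ => hn⟩
        · exact ⟨0, fun h => absurd h hx⟩
      choose k hk using hch
      obtain ⟨N, hN⟩ := (hfin.image k).bddAbove
      exact ⟨N, fun x hx => hmono (hN (mem_image_of_mem k hx)) (hk x hx)⟩
    obtain ⟨n, hn⟩ := h1
    exact cap_mono hn (subset_refl _) (hcap n)

end Pool.Agent.H162R3.SK.Base106
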