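import Pool.Agent.H162R3.SK.Stmts

/-!
# Task CAP
-/

set_option autoImplicit false

open Set

namespace Pool.Agent.H162R3.SK

/-- Sokolov's property for countably many closed subsets of the space -/
theorem cap_sok {X : Type} [TopologicalSpace X] (hX : Sok X) (E : ℕ → Set X)
    (hE : ∀ k, IsClosed (E k)) :
    ∃ f : X → X, Continuous f ∧
      (∃ N : Set (Set X), N.Countable ∧
        ∀ x ∈ Set.range f, ∀ U : Set X, IsOpen U → x ∈ U →
          ∃ A ∈ N, x ∈ A ∧ A ⊆ U ∩ Set.range f) ∧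
      ∀ k, ∀ x ∈ E k, f x ∈ E k := by
  let F : (n : ℕ) → Set (Fin n → X) := fun n =>
    match n with
    | 0 => univ
    | k + 1 => {x : Fin (k + 1) → X | x 0 ∈ E k}
  have hF : ∀ n, IsClosed (F n) := by
    intro n
    cases n with
    | zero => exact isClosed_univ
    | succ k =>
      exact (hE k).preimage (continuous_apply (0 : Fin (k + 1)))
  obtain ⟨f, hf, hN, h⟩ := hX F hF
  refine ⟨f, hf, hN, fun k x hx => ?_⟩
  have h1 : (fun _ : Fin (k + 1) => x) ∈ F (k + 1) := hx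
  exact h (k + 1) _ h1

theorem taskCap : TaskCap := by
  classical
  intro X _ _ _ hX S hS
  -- the closed sets
  set EE : Set (Set X) := {univ} ∪ ((fun x : X => ({x} : Set X)) '' (Pt S) ∪
    ⋃ φ ∈ Fn S, ⋃ a : ℚ, ⋃ b : ℚ, {φ ⁻¹' Icc (a : ℝ) (b : ℝ)}) with hEE
  have cPt : (Pt S).Countable := hS.preimage Sum.inl_injective
  have cFn : (Fn S).Countable := hS.preimage Sum.inr_injective
  have cEE : EE.Countable := by
    rw [hEE]
    refine (countable_singleton _).union ((cPt.image _).union ?_)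
    exact cFn.biUnion fun φ _ => countable_iUnion fun a => countable_iUnion fun b =>
      countable_singleton _
  have clEE : ∀ E ∈ EE, IsClosed E := by
    rintro E (h | h | h)
    · rw [mem_singleton_iff] at h
      subst h
      exact isClosed_univ
    · obtain ⟨x, -, rfl⟩ := h
      exact isClosed_singleton
    · simp only [mem_iUnion, mem_singleton_iff] at h
      obtain ⟨φ, -, a, b, rfl⟩ := h
      exact isClosed_Icc.preimage φ.continuous
  obtain ⟨E, hE⟩ := cEE.exists_eq_range ⟨univ, Or.inl rfl⟩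
  obtain ⟨f, hf, ⟨N, cN, hN⟩, hfE⟩ := cap_sok hX E (fun k => clEE _ (by rw [hE]; exact ⟨k, rfl⟩))
  have hfEE : ∀ A ∈ EE, ∀ x ∈ A, f x ∈ A := by
    intro A hA x hx
    rw [hE] at hA
    obtain ⟨k, rfl⟩ := hA
    exact hfE k x hx
  have f1 : ∀ x ∈ Pt S, f x = x := fun x hx =>
    hfEE {x} (Or.inr (Or.inl ⟨x, hx, rfl⟩)) x rfl
  have hI : ∀ φ ∈ Fn S, ∀ (a b : ℚ) (x : X), (a : ℝ) ≤ φ x → φ x ≤ b →
      (a : ℝ) ≤ φ (f x) ∧ φ (f x) ≤ b := by
    intro φ hφ a b x h1 h2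
    have h3 : (φ ⁻¹' Icc (a : ℝ) (b : ℝ)) ∈ EE := by
      refine Or.inr (Or.inr ?_)
      simp only [mem_iUnion, mem_singleton_iff]
      exact ⟨φ, hφ, a, b, rfl⟩
    exact hfEE _ h3 x ⟨h1, h2⟩
  have f2 : ∀ φ ∈ Fn S, ∀ x, φ (f x) = φ x := by
    intro φ hφ x
    rcases lt_trichotomy (φ (f x)) (φ x) with h | h | h
    · obtain ⟨a, ha1, ha2⟩ := exists_rat_btwn h
      obtain ⟨b, hb1, -⟩ := exists_rat_btwn (lt_add_one (φ x))
      have := (hI φ hφ a b x ha2.le hb1.le).1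
      exact absurd ha1 (not_lt.2 this)
    · exact h
    · obtain ⟨b, hb1, hb2⟩ := exists_rat_btwn h
      obtain ⟨a, -, ha2⟩ := exists_rat_btwn (sub_one_lt (φ x))
      have := (hI φ hφ a b x ha2.le hb1.le).2
      exact absurd hb2 (not_lt.2 this)
  -- the countable dense set
  set D : Set X := ⋃ A ∈ N, {p | ∃ h : A.Nonempty, p = h.some} with hD
  have cD : D.Countable := cN.biUnion fun A _ => by
    refine Set.Subsingleton.countable ?_
    rintro p ⟨h, rfl⟩ q ⟨h', rfl⟩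
    rfl
  have dD : ∀ x ∈ range f, x ∈ closure D := by
    intro x hx
    rw [mem_closure_iff]
    intro U hU hxU
    obtain ⟨A, hA, hxA, hAU⟩ := hN x hx U hU hxU
    have hne : A.Nonempty := ⟨x, hxA⟩
    refine ⟨hne.some, (hAU hne.some_mem).1, ?_⟩
    simp only [hD, mem_iUnion]
    exact ⟨A, hA, hne, rfl⟩
  -- the countable separating set
  set Ψ : Set C(X, ℝ) := ⋃ A ∈ N, ⋃ B ∈ N,
    {ψ | ∃ h : ∃ ψ : C(X, ℝ), (∀ x ∈ A, ψ x ≤ 0) ∧ (∀ x ∈ B, 1 ≤ ψ x), ψ = h.choose} with hΨ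
  have cΨ : Ψ.Countable := cN.biUnion fun A _ => cN.biUnion fun B _ => by
    refine Set.Subsingleton.countable ?_
    rintro p ⟨h, rfl⟩ q ⟨h', rfl⟩
    rfl
  have sΨ : ∀ u ∈ range f, ∀ v ∈ range f, u ≠ v → ∃ ψ ∈ Ψ, ψ u ≠ ψ v := by
    intro u hu v hv huv
    obtain ⟨g, g1, g2, -⟩ := exists_continuous_zero_one_of_isClosed (s := ({u} : Set X))
      (t := ({v} : Set X)) isClosed_singleton isClosed_singleton (by simpa using huv)
    have gu : g u = 0 := g1 rfl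
    have gv : g v = 1 := g2 rfl
    obtain ⟨A, hA, huA, hAU⟩ := hN u hu {x | g x < 1 / 3}
      (isOpen_lt g.continuous continuous_const) (by simp [gu])
    obtain ⟨B, hB, hvB, hBV⟩ := hN v hv {x | 2 / 3 < g x}
      (isOpen_lt continuous_const g.continuous) (by simp [gv]; norm_num)
    have hex : ∃ ψ : C(X, ℝ), (∀ x ∈ A, ψ x ≤ 0) ∧ (∀ x ∈ B, 1 ≤ ψ x) := by
      refine ⟨⟨fun x => 3 * g x - 1, by fun_prop⟩, fun x hx => ?_, fun x hx => ?_⟩
      · have h1 : g x < 1 / 3 := (hAU hx).1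
        show 3 * g x - 1 ≤ 0
        linarith
      · have h1 : 2 / 3 < g x := (hBV hx).1
        show 1 ≤ 3 * g x - 1
        linarith
    refine ⟨hex.choose, ?_, ?_⟩
    · simp only [hΨ, mem_iUnion]
      exact ⟨A, hA, B, hB, hex, rfl⟩
    · have h1 := hex.choose_spec.1 u huA
      have h2 := hex.choose_spec.2 v hvB
      intro h3
      linarith
  refine ⟨S ∪ (Sum.inl '' D ∪ Sum.inr '' Ψ), subset_union_left,
    hS.union ((cD.image _).union (cΨ.image _)), f, hf, f1, f2, ?_, ?_⟩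
  · intro x
    refine closure_mono ?_ (dD (f x) ⟨x, rfl⟩)
    intro p hp
    exact Or.inr (Or.inl ⟨p, hp, rfl⟩)
  · intro x y hxy
    obtain ⟨ψ, h1, h2⟩ := sΨ (f x) ⟨x, rfl⟩ (f y) ⟨y, rfl⟩ hxy
    exact ⟨ψ, Or.inr (Or.inr ⟨ψ, h1, rfl⟩), h2⟩

end Pool.Agent.H162R3.SK
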