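import Pool.Agent.H162R3.SK.Stmts

set_option autoImplicit false

open Set Cardinal

namespace Pool.Agent.H162R3.SK.Chain591

theorem biUnion_le {Ω W : Type} {κ : Cardinal.{0}} (hκ : ℵ₀ ≤ κ) (s : Set W) (hs : #s ≤ κ)
    (A : W → Set Ω) (hA : ∀ x ∈ s, #(A x) ≤ κ) : #(⋃ x ∈ s, A x : Set Ω) ≤ κ := by
  refine (Cardinal.mk_biUnion_le A s).trans ?_
  have h1 : (⨆ x : s, #(A x.1)) ≤ κ := ciSup_le' fun x => hA x.1 x.2
  calc #s * ⨆ x : s, #(A x.1) ≤ κ * κ := mul_le_mul' hs h1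
    _ = κ := Cardinal.mul_eq_self hκ

theorem taskChain : TaskChain := by
  intro Ω κ hκ Q hQ B hB
  have hop : ∀ B : Set Ω, ∃ G : Set Ω, #B ≤ κ → (B ⊆ G ∧ #G ≤ κ ∧ Q B G) := by
    intro B
    by_cases h : #B ≤ κ
    · obtain ⟨G, hG⟩ := hQ B h
      exact ⟨G, fun _ => hG⟩
    · exact ⟨∅, fun h' => absurd h' h⟩
  choose Gop hGop using hop
  let W : Type := (Order.succ κ).ord.ToType
  have hW : #W = Order.succ κ := Cardinal.mk_ord_toType _
  have hIio : ∀ η : W, #(Iio η) ≤ κ := fun η =>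
    Order.lt_succ_iff.1 (Cardinal.mk_Iio_toType_ord_lt η)
  have hIic : ∀ η : W, #(Iic η) ≤ κ := by
    intro η
    have h1 : Iic η = Iio η ∪ {η} := by
      ext x
      simp [le_iff_lt_or_eq]
    rw [h1]
    refine (Cardinal.mk_union_le _ _).trans ?_
    rw [Cardinal.mk_singleton]
    calc #(Iio η) + 1 ≤ κ + κ := add_le_add (hIio η) (le_trans Cardinal.one_le_aleph0 hκ)
      _ = κ := Cardinal.add_eq_self hκ
  have hBW : #B ≤ #W := by rw [hW]; exact hB
  obtain ⟨f⟩ := Cardinal.le_def B W |>.1 hBW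
  let s : W → Set Ω := fun η => {x | ∃ h : x ∈ B, f ⟨x, h⟩ = η}
  have hs : ∀ η, #(s η) ≤ 1 := by
    intro η
    rw [Cardinal.mk_le_one_iff_set_subsingleton]
    rintro x ⟨hx, hx'⟩ y ⟨hy, hy'⟩
    have := f.injective (hx'.trans hy'.symm)
    exact congrArg Subtype.val this
  let G : W → Set Ω := WellFounded.fix (wellFounded_lt : WellFounded ((· < ·) : W → W → Prop))
    (fun η rec => Gop ((⋃ (ζ : W) (h : ζ < η), rec ζ h) ∪ s η))
  let D : W → Set Ω := fun η => (⋃ ζ ∈ Iio η, G ζ) ∪ s η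
  have hG : ∀ η, G η = Gop (D η) := fun η => WellFounded.fix_eq _ _ η
  have hcard : ∀ η, #(D η) ≤ κ ∧ #(G η) ≤ κ := by
    intro η
    induction η using WellFoundedLT.induction with
    | ind η ih =>
      have h1 : #(D η) ≤ κ := by
        refine (Cardinal.mk_union_le _ _).trans ?_
        have h2 := biUnion_le hκ (Iio η) (hIio η) G (fun ζ hζ => (ih ζ hζ).2)
        calc #(⋃ ζ ∈ Iio η, G ζ : Set Ω) + #(s η) ≤ κ + κ :=
              add_le_add h2 ((hs η).trans (le_trans Cardinal.one_le_aleph0 hκ))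
          _ = κ := Cardinal.add_eq_self hκ
      refine ⟨h1, ?_⟩
      rw [hG]
      exact (hGop (D η) h1).2.1
  have hcov : B ⊆ ⋃ η, G η := by
    intro x hx
    rw [mem_iUnion]
    refine ⟨f ⟨x, hx⟩, ?_⟩
    rw [hG]
    exact (hGop _ (hcard _).1).1 (Or.inr ⟨hx, rfl⟩)
  refine ⟨W, inferInstance, inferInstance, G, D, ?_, fun η => (hcard η).2, hcov, ?_, ?_⟩
  · intro η
    refine ⟨subset_union_left, ?_, ?_⟩
    · rw [hG]
      exact (hGop (D η) (hcard η).1).1
    · rw [hG]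
      exact (hGop (D η) (hcard η).1).2.2
  · have h0 : ℵ₀ ≤ Order.succ κ := hκ.trans (Order.le_succ κ)
    refine (Cardinal.mk_iUnion_le G).trans ?_
    have h1 : (⨆ η, #(G η)) ≤ Order.succ κ := ciSup_le' fun η => ((hcard η).2).trans (Order.le_succ κ)
    calc #W * ⨆ η, #(G η) ≤ Order.succ κ * Order.succ κ := mul_le_mul' hW.le h1
      _ = Order.succ κ := Cardinal.mul_eq_self h0
  · intro T hT hTc
    by_contra hcon
    push Not at hcon
    have h1 : ∀ t : Ω, ∃ η : W, t ∈ T → t ∈ G η := by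
      intro t
      by_cases ht : t ∈ T
      · obtain ⟨η, hη⟩ := mem_iUnion.1 (hT ht)
        exact ⟨η, fun _ => hη⟩
      · have hne : Nonempty W := by
          rw [← Cardinal.mk_ne_zero_iff, hW]
          exact (Order.bot_lt_succ κ).ne'
        exact ⟨hne.some, fun h => absurd h ht⟩
    choose e he using h1
    have h2 : (univ : Set W) ⊆ ⋃ t ∈ T, Iic (e t) := by
      intro η _
      by_contra h3
      apply hcon η
      intro t ht
      simp only [mem_iUnion, mem_Iic, not_exists, not_le] at h3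
      simp only [mem_iUnion]
      exact ⟨e t, h3 t ht, he t ht⟩
    have h3 : #(⋃ t ∈ T, Iic (e t) : Set W) ≤ κ :=
      biUnion_le hκ T (hTc.le_aleph0.trans hκ) (fun t => Iic (e t)) (fun t _ => hIic (e t))
    have h4 : #W ≤ κ := by
      rw [← Cardinal.mk_univ]
      exact (Cardinal.mk_le_mk_of_subset h2).trans h3
    rw [hW] at h4
    exact absurd (Order.lt_succ κ) (not_lt.2 h4)

end Pool.Agent.H162R3.SK.Chain591
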