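import Pool.Agent.H162R3.SK.Stmts

set_option autoImplicit false

open Set

namespace Pool.Agent.H162R3.SK

theorem ev_mapDomain {X : Type} [TopologicalSpace X] (μ : X →₀ ℝ) (r : X → X) (ψ : C(X, ℝ)) :
    ev (μ.mapDomain r) ψ = μ.sum fun x a => a * ψ (r x) := by
  unfold ev
  rw [Finsupp.sum_mapDomain_index]
  · intro b; ring
  · intro b m₁ m₂; ring

theorem taskGN : TaskGN := by
  intro X _ _ _ hSW A hA ⟨r, hr⟩
  refine ⟨r, hr, fun φ => ?_⟩
  obtain ⟨Φ, hΦA, hΦc, hΦ⟩ := hSW A hA φ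
  refine ⟨Φ, hΦc, fun μ hμ => hΦ _ ?_ ?_⟩
  · intro x hx
    classical
    obtain ⟨y, _, rfl⟩ := Finset.mem_image.1 (Finsupp.mapDomain_support hx)
    exact hr.1 y
  · intro ψ hψ
    have h : ev (μ.mapDomain r) ψ = ev μ ψ := by
      rw [ev_mapDomain]
      unfold ev
      exact Finsupp.sum_congr (fun x _ => by rw [hr.2 ψ (hΦA hψ)])
    rw [h]
    exact hμ ψ hψ

end Pool.Agent.H162R3.SK
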