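import Pool.Agent.H162R3.SK.Stmts

set_option autoImplicit false

open Set Cardinal

namespace Pool.Agent.H162R3.SK.Ret162

open Pool.Agent.H162R3.SK

theorem taskRet : TaskRet := by
  classical
  intro X _ _ _ A h
  have key : ∀ x : X, ∃ z, z ∈ closure (Pt A) ∧ ∀ ψ ∈ Fn A, ψ z = ψ x := by
    intro x
    have hne : (⋂ F : {F : Finset C(X, ℝ) // (F : Set C(X, ℝ)) ⊆ Fn A},
        closure (Pt A) ∩ ⋂ ψ ∈ F.1, {z | ψ z = ψ x}).Nonempty := by
      haveI : Nonempty {F : Finset C(X, ℝ) // (F : Set C(X, ℝ)) ⊆ Fn A} :=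
        ⟨⟨∅, by simp⟩⟩
      apply IsCompact.nonempty_iInter_of_directed_nonempty_isCompact_isClosed
      · intro F G
        refine ⟨⟨F.1 ∪ G.1, by
          intro ψ hψ
          simp only [Finset.coe_union, mem_union] at hψ
          rcases hψ with h | h
          · exact F.2 h
          · exact G.2 h⟩, ?_, ?_⟩
        · rintro z ⟨hz, hz2⟩
          refine ⟨hz, ?_⟩
          simp only [mem_iInter] at hz2 ⊢
          intro ψ hψ
          exact hz2 ψ (Finset.mem_union_left _ hψ)
        · rintro z ⟨hz, hz2⟩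
          refine ⟨hz, ?_⟩
          simp only [mem_iInter] at hz2 ⊢
          intro ψ hψ
          exact hz2 ψ (Finset.mem_union_right _ hψ)
      · intro F
        obtain ⟨f, hf, h1, h2, h3, h4⟩ := h (Sum.inr '' (F.1 : Set C(X, ℝ)))
          (by rintro _ ⟨ψ, hψ, rfl⟩; exact F.2 hψ) (F.1.finite_toSet.image _)
        refine ⟨f x, h3 x, ?_⟩
        simp only [mem_iInter]
        intro ψ hψ
        exact h2 ψ ⟨ψ, hψ, rfl⟩ x
      · intro F
        refine IsClosed.isCompact ?_
        refine isClosed_closure.inter (isClosed_biInter fun ψ _ => ?_)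
        exact isClosed_eq ψ.continuous continuous_const
      · intro F
        refine isClosed_closure.inter (isClosed_biInter fun ψ _ => ?_)
        exact isClosed_eq ψ.continuous continuous_const
    obtain ⟨z, hz⟩ := hne
    simp only [mem_iInter] at hz
    refine ⟨z, (hz ⟨∅, by simp⟩).1, ?_⟩
    intro ψ hψ
    have := (hz ⟨{ψ}, by simpa using hψ⟩).2
    simp only [mem_iInter] at this
    exact this ψ (by simp)
  choose r hr1 hr2 using key
  exact ⟨r, hr1, fun ψ hψ x => hr2 x ψ hψ⟩

end Pool.Agent.H162R3.SK.Ret162
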