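import Mathlib

set_option autoImplicit false

/-!
# Sokolov compact spaces of density at most aleph_omega (MP_719d1c_gt)

`Om X = X ⊕ C(X,ℝ)`: we work with sets `A` of points and continuous functions of `X`.
`Pt A` = the points in `A`, `Fn A` = the functions in `A`. A finitely supported measure is
`μ : X →₀ ℝ`, `ev μ φ = ∑ μ(x) φ(x)`.
-/

open Set Cardinal

namespace Pool.Agent.H162R3.SK

section defs

variable {X : Type} [TopologicalSpace X]

/-- the Sokolov property (exactly as in the frozen statement S13379) -/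
def Sok (X : Type) [TopologicalSpace X] : Prop :=
  ∀ F : (n : ℕ) → Set (Fin n → X), (∀ n, IsClosed (F n)) →
    ∃ f : X → X, Continuous f ∧
      (∃ N : Set (Set X), N.Countable ∧
        ∀ x ∈ Set.range f, ∀ U : Set X, IsOpen U → x ∈ U →
          ∃ A ∈ N, x ∈ A ∧ A ⊆ U ∩ Set.range f) ∧
      ∀ n, ∀ x ∈ F n, f ∘ x ∈ F n

/-- countable tightness -/
def Tight (X : Type) [TopologicalSpace X] : Prop :=
  ∀ (B : Set X) (x : X), x ∈ closure B → ∃ T ⊆ B, T.Countable ∧ x ∈ closure T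

/-- points -/
def Pt (A : Set (X ⊕ C(X, ℝ))) : Set X := {x | Sum.inl x ∈ A}

/-- functions -/
def Fn (A : Set (X ⊕ C(X, ℝ))) : Set C(X, ℝ) := {φ | Sum.inr φ ∈ A}

/-- integration of `φ` against the finitely supported measure `μ` -/
noncomputable def ev (μ : X →₀ ℝ) (φ : C(X, ℝ)) : ℝ := μ.sum fun x a => a * φ x

/-- `T` is captured by `A`: a continuous map `f` fixes the points and the functions of `T`,
has values in the closure of the points of `A`, and the functions in `A` separate its values -/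
def Cap (T A : Set (X ⊕ C(X, ℝ))) : Prop :=
  ∃ f : X → X, Continuous f ∧ (∀ x ∈ Pt T, f x = x) ∧ (∀ φ ∈ Fn T, ∀ x, φ (f x) = φ x) ∧
    (∀ x, f x ∈ closure (Pt A)) ∧ (∀ x y, f x ≠ f y → ∃ ψ ∈ Fn A, ψ (f x) ≠ ψ (f y))

/-- the functions in `A` contain `1` and are closed under products -/
def Mulc (A : Set (X ⊕ C(X, ℝ))) : Prop :=
  (1 : C(X, ℝ)) ∈ Fn A ∧ ∀ φ ∈ Fn A, ∀ ψ ∈ Fn A, φ * ψ ∈ Fn A

/-- good sets -/
def Good (A : Set (X ⊕ C(X, ℝ))) : Prop :=
  Mulc A ∧ ∀ T ⊆ A, T.Countable → Cap T A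

/-- `r` is a (possibly discontinuous) map to the closure of the points of `A` which preserves
all functions of `A` -/
def Ret (A : Set (X ⊕ C(X, ℝ))) (r : X → X) : Prop :=
  (∀ x, r x ∈ closure (Pt A)) ∧ ∀ ψ ∈ Fn A, ∀ x, ψ (r x) = ψ x

/-- nice sets: there is such an `r` with `φ ∘ r` determined by countably many continuous
functions -/
def Nice (A : Set (X ⊕ C(X, ℝ))) : Prop :=
  ∃ r : X → X, Ret A r ∧ ∀ φ : C(X, ℝ), ∃ Φ : Set C(X, ℝ), Φ.Countable ∧
    ∀ μ : X →₀ ℝ, (∀ ψ ∈ Φ, ev μ ψ = 0) → ev (μ.mapDomain r) φ = 0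

/-- `R` corrects measures: values live on the closure of the points of `A` and have the same
integrals of the functions in `A` -/
def Corr (A : Set (X ⊕ C(X, ℝ))) (R : (X →₀ ℝ) → (X →₀ ℝ)) : Prop :=
  (∀ μ, ∀ x ∈ (R μ).support, x ∈ closure (Pt A)) ∧ ∀ μ, ∀ ψ ∈ Fn A, ev (R μ) ψ = ev μ ψ

/-- a point-countable family of measures on the closure of the points of `G` which separates -/
def Fam (G : Set (X ⊕ C(X, ℝ))) (I : Type) (m : I → X →₀ ℝ) : Prop :=
  (∀ i, ∀ x ∈ (m i).support, x ∈ closure (Pt G)) ∧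
  (∀ φ : C(X, ℝ), {i | ev (m i) φ ≠ 0}.Countable) ∧
  (∀ φ : C(X, ℝ), (∀ i, ev (m i) φ = 0) → ∀ x ∈ Pt G, φ x = 0)

/-- conclusion of the Stone-Weierstrass task -/
def SW (X : Type) [TopologicalSpace X] : Prop :=
  ∀ A : Set (X ⊕ C(X, ℝ)), Good A → ∀ φ : C(X, ℝ), ∃ Φ ⊆ Fn A, Φ.Countable ∧
    ∀ μ : X →₀ ℝ, (∀ x ∈ μ.support, x ∈ closure (Pt A)) → (∀ ψ ∈ Φ, ev μ ψ = 0) → ev μ φ = 0

end defs

/-- TASK TIGHT (about 150 lines). Sokolov compact spaces have countable tightness.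
PROOF. Otherwise there is `B` containing the closures of its countable subsets (B = the union of
the closures of the countable subsets of the given set) and `p ∈ closure B \ B`. By transfinite
recursion over `α < ω₁` (any well-order `W` of order type ω₁: all initial segments countable, `W`
uncountable) choose `g_α : X → [0,1]` continuous with `g_α p = 0` and `g_α = 1` on the closure of
`{x_β : β < α}` (this closure is inside `B`, so it misses `p`: Urysohn), and `x_α ∈ B` with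
`g_β x_α = 0` for all `β ≤ α` (`B` meets every G_δ set containing p: take `b_n ∈ B` with
`g_{β_i} b_n < 1/n` for `i < n`, and a cluster point of `(b_n)`: it is in the closure of the
countable set `{b_n} ⊆ B`, so in `B`). Put `L_α = closure {x_β : β < α}`,
`R_α = closure {x_β : β ≥ α}`: disjoint (g_α = 1 resp. 0), `Y = L_α ∪ R_α` with
`Y = closure {x_α}`. `R = ⋂ R_α ≠ ∅` closed. `F = {(y,y') ∈ Y × Y : ∀ α, y ∈ L_α → y' ∈ L_{α+1}}
= ⋂_α (R_α × Y ∪ L_α × L_{α+1})` closed. Apply Sokolov to `{x_0}, Y, R ⊆ X` and `F ⊆ X²` (code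
several subsets of `X` in different powers, e.g. `{x : Fin 3 → X | x 0 ∈ Y}`). `f(Y)` has a
countable dense subset and `Y = (⋃ L_α) ∪ R`, so `f(Y) ⊆ L_γ ∪ R` for some γ ≥ 1. Let
`Z = {y ∈ Y : f y ∉ R} = {y ∈ Y : f y ∈ L_γ}`: compact, contains `x_0`, disjoint from `R`
(f(R) ⊆ R) so `Z ⊆ L_α` for some α; take α least. If (y,y') ∈ F and y ∈ Z then f y' ∈ L_{γ+1} so
f y' ∉ R, y' ∈ Z. By minimality and compactness there is y ∈ Z with y ∉ L_β for all β < α (α is
not 0; successor: clear; limit: y ∈ Z ∩ ⋂_{β<α} R_β). Then (y, x_α) ∈ F, so x_α ∈ Z ⊆ L_α: false. -/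
def TaskTight : Prop :=
  ∀ (X : Type) [TopologicalSpace X] [CompactSpace X] [T2Space X], Sok X → Tight X

/-- TASK CAP (about 120 lines). PROOF. Code countably many closed sets
`{x}` (x ∈ Pt S) and `φ⁻¹[a,b]` (φ ∈ Fn S, a,b rational) (closed subsets `E_k` of `X`, k ∈ ℕ) as
`F_{k+1} = {x : Fin (k+1) → X | x 0 ∈ E_k}` and apply `Sok`: `f (E_k) ⊆ E_k` (constant tuples), so
`f x = x` on `Pt S` and `φ ∘ f = φ` for `φ ∈ Fn S`. `range f` is compact with a countable network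
`N`. Choose one point in each nonempty member of `N` (members `⊆ range f` only): a countable dense
subset of `range f` (put it in `S'`; so `range f ⊆ closure (Pt S')`). For each pair of members
`A, B` of `N` which can be separated by a continuous function `ψ : X → ℝ` (ψ ≤ 0 on A, ψ ≥ 1 on
B) put such a `ψ` in `S'`: by normality of `X` any two different points of `range f` lie in two
such members. If `X` is empty everything is trivial. -/
def TaskCap : Prop :=
  ∀ (X : Type) [TopologicalSpace X] [CompactSpace X] [T2Space X], Sok X →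
    ∀ S : Set (X ⊕ C(X, ℝ)), S.Countable → ∃ S' : Set (X ⊕ C(X, ℝ)), S ⊆ S' ∧ S'.Countable ∧ Cap S S'

/-- TASK BASE (about 60 lines), from TaskCap: iterate countably often:
`G_0 = B`, `G_{n+1} ⊇ G_n ∪ {1} ∪ products`, countable, `Cap G_n G_{n+1}`; `G = ⋃ G_n`.
(`Cap` is monotone: `T ⊆ T'`, `A' ⊆ A`, `Cap T' A'` give `Cap T A`.) -/
def TaskBase : Prop :=
  ∀ (X : Type) [TopologicalSpace X] [CompactSpace X] [T2Space X],
    (∀ S : Set (X ⊕ C(X, ℝ)), S.Countable →
      ∃ S' : Set (X ⊕ C(X, ℝ)), S ⊆ S' ∧ S'.Countable ∧ Cap S S') →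
    ∀ B : Set (X ⊕ C(X, ℝ)), B.Countable → ∃ G : Set (X ⊕ C(X, ℝ)), B ⊆ G ∧ G.Countable ∧
      Mulc G ∧ Cap B G ∧ ∀ T ⊆ G, T.Finite → Cap T G

/-- TASK SW (about 100 lines). PROOF. (1) The functions in `A` separate the points of
`K = closure (Pt A)`: for x ≠ y in `K`, tightness gives a countable `T ⊆ Pt A` with
`x, y ∈ closure T`; `Cap (Sum.inl '' T) A` gives `f` fixing `closure T` pointwise, so
`x = f x ≠ f y = y` are separated. (2) The linear span of `Fn A` is a subalgebra (`Mulc`), so by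
Stone-Weierstrass on the compact space `K` the restriction of `φ` to `K` is a uniform limit of
elements `φ_n` of the span; `Φ` = the countably many members of `Fn A` used. (3) If all of `Φ`
integrate to 0 against `μ` (supported in `K`) then so do the `φ_n` and hence `φ`. -/
def TaskSW : Prop :=
  ∀ (X : Type) [TopologicalSpace X] [CompactSpace X] [T2Space X], Tight X → SW X

/-- TASK RET (about 50 lines). PROOF. For x ∈ X the sets
`{z ∈ closure (Pt A) : ∀ ψ ∈ F, ψ z = ψ x}` (F a finite subset of `Fn A`) are compact, directed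
and nonempty (z = f x for the `f` of `Cap (Sum.inr '' F) A`): a common point is `r x`. -/
def TaskRet : Prop :=
  ∀ (X : Type) [TopologicalSpace X] [CompactSpace X] [T2Space X] (A : Set (X ⊕ C(X, ℝ))),
    (∀ T ⊆ A, T.Finite → Cap T A) → ∃ r : X → X, Ret A r

/-- TASK GN (about 40 lines). PROOF. Take `r` from TaskRet. For `φ` take `Φ` from `SW`
for the good set `A`. If `ev μ ψ = 0` for ψ ∈ Φ then `ev (μ.mapDomain r) ψ = ∑ μ(x) ψ(r x) =
ev μ ψ = 0`, and `μ.mapDomain r` is supported in `closure (Pt A)`; so `ev (μ.mapDomain r) φ = 0`. -/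
def TaskGN : Prop :=
  ∀ (X : Type) [TopologicalSpace X] [CompactSpace X] [T2Space X], SW X →
    ∀ A : Set (X ⊕ C(X, ℝ)), Good A → (∃ r : X → X, Ret A r) → Nice A

/-- TASK UN (about 80 lines). PROOF. Take an ultrafilter on `C` (or on sets) containing
`{G' ∈ C : G ⊆ G'}` for all `G ∈ C`, and let `r x` be the limit of the `r_G x` along it
(compactness). `Φ` = union of the `Φ_G`; `φ (r x) = lim φ (r_G x)` so
`ev (μ.mapDomain r) φ = lim ev (μ.mapDomain r_G) φ = 0` (finite sums). -/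
def TaskUN : Prop :=
  ∀ (X : Type) [TopologicalSpace X] [CompactSpace X] [T2Space X] (C : Set (Set (X ⊕ C(X, ℝ)))),
    C.Countable → C.Nonempty → DirectedOn (· ⊆ ·) C → (∀ G ∈ C, Nice G) → Nice (⋃₀ C)

/-- TASK STEP (about 130 lines). Write `A η = ⋃ ζ < η, G ζ` and `μ' = m η i - R η (m η i)`.
PROOF. Supports: clear (`A η ⊆ G η`). Separation: well-founded induction on η: if φ = 0 on
`Pt (G ζ)` for ζ < η then φ = 0 on `closure (Pt (A η))`, so `ev (R η (m η i)) φ = 0`, so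
`ev (m η i) φ = 0` for all i, so φ = 0 on `Pt (G η)`. Countability: fix φ and let
`Bad = {η : ∃ i, ev μ' φ ≠ 0}`; for each η only countably many i are bad. Suppose `Bad` is
uncountable. There is a lower set `J` of `W` with `Bad ∩ J` uncountable and `Bad ∩ Iic ζ`
countable for every ζ ∈ J (`J = Iio η` for the least η with `Bad ∩ Iio η` uncountable, or
`J = univ` if there is none). Then (*): for countable `Z ⊆ J` there is ζ ∈ J with z < ζ for all
z ∈ Z (else `Bad ∩ J ⊆ ⋃_{z ∈ Z} Bad ∩ Iic z`). So `A* = ⋃ ζ ∈ J, G ζ` is good (`Cap` is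
monotone) and by `SW` φ has a countable Φ ⊆ Fn A*; by (*) Φ ⊆ Fn (A ζ0), ζ0 ∈ J. Take η ∈ Bad ∩ J
with ζ0 ≤ η: μ' is supported in closure (Pt A*) and kills Φ ⊆ Fn (A η): ev μ' φ = 0. -/
def TaskStep : Prop :=
  ∀ (X : Type) [TopologicalSpace X] [CompactSpace X] [T2Space X], SW X →
    ∀ (W : Type) [LinearOrder W] [WellFoundedLT W] (G : W → Set (X ⊕ C(X, ℝ))),
      (∀ η, (⋃ ζ ∈ Iio η, G ζ) ⊆ G η) → (∀ η, Mulc (G η)) →
      (∀ η, ∀ T ⊆ ⋃ ζ ∈ Iio η, G ζ, T.Countable → Cap T (G η)) →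
      ∀ (I : W → Type) (m : ∀ η, I η → X →₀ ℝ), (∀ η, Fam (G η) (I η) (m η)) →
      ∀ R : W → (X →₀ ℝ) → (X →₀ ℝ), (∀ η, Corr (⋃ ζ ∈ Iio η, G ζ) (R η)) →
      (∀ η (φ : C(X, ℝ)), {i | ev (R η (m η i)) φ ≠ 0}.Countable) →
      Fam (⋃ η, G η) (Σ η, I η) (fun p => m p.1 p.2 - R p.1 (m p.1 p.2))

/-- TASK CHAIN (about 150 lines; pure set theory, any type `Ω`). PROOF. `W` = the well-order
`(succ κ).ord.ToType`: all initial segments `Iio η`, `Iic η` have cardinality ≤ κ, and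
`#W = succ κ`. Let `b : W → Ω` have range containing `B` (if `Ω` or `B` is empty adapt). Choose an
operator `Gop` from the hypothesis and define by well-founded recursion
`G η = Gop ((⋃ ζ < η, G ζ) ∪ {b η})`, `D η = (⋃ ζ < η, G ζ) ∪ {b η}`; cardinalities ≤ κ by
induction. A countable `T ⊆ ⋃ G` has witnesses `η_t`; if no η is above all of them then
`W = ⋃_t Iic η_t` has cardinality ≤ κ: false. -/
def TaskChain : Prop :=
  ∀ (Ω : Type) (κ : Cardinal.{0}), ℵ₀ ≤ κ → ∀ Q : Set Ω → Set Ω → Prop,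
    (∀ B : Set Ω, #B ≤ κ → ∃ G : Set Ω, B ⊆ G ∧ #G ≤ κ ∧ Q B G) →
    ∀ B : Set Ω, #B ≤ Order.succ κ →
      ∃ (W : Type) (_ : LinearOrder W) (_ : WellFoundedLT W) (G D : W → Set Ω),
        (∀ η, (⋃ ζ ∈ Iio η, G ζ) ⊆ D η ∧ D η ⊆ G η ∧ Q (D η) (G η)) ∧
        (∀ η, #(G η) ≤ κ) ∧ B ⊆ ⋃ η, G η ∧ #(⋃ η, G η : Set Ω) ≤ Order.succ κ ∧
        ∀ T ⊆ ⋃ η, G η, T.Countable → ∃ η, T ⊆ ⋃ ζ ∈ Iio η, G ζ

/-- TASK DENS (about 40 lines). A set of cardinality at most `ℵ_ω` is a countable union of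
sets of cardinality at most `ℵ_{n+1}`. (Inject it into `(ℵ_ ω).ord.ToType` or
`Set.Iio (ℵ_ ω).ord`; ordinals below `ω_ ω` are below some `ω_ n`.) -/
def TaskDens : Prop :=
  ∀ (X : Type) (D : Set X), #D ≤ ℵ_ (Ordinal.omega0) →
    ∃ E : ℕ → Set X, D = ⋃ n, E n ∧ ∀ n : ℕ, #(E n) ≤ ℵ_ ((n : Ordinal) + 1)

end Pool.Agent.H162R3.SK
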