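import Mathlib
import Pool.Agent.H162R3.SK.Stmts

/-! # TaskSW of project H162-SK (helper729) -/

set_option autoImplicit false

open Set Filter Topology

namespace Pool.Agent.H162R3.SK

/-- the functions in a good set separate the points of the closure of its points -/
lemma sep_of_good {X : Type} [TopologicalSpace X] [T2Space X] (hT : Tight X)
    {A : Set (X ⊕ C(X, ℝ))} (hA : Good A) {x y : X} (hx : x ∈ closure (Pt A))
    (hy : y ∈ closure (Pt A)) (hxy : x ≠ y) : ∃ ψ ∈ Fn A, ψ x ≠ ψ y := by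
  obtain ⟨T₁, h1, h1c, h1x⟩ := hT _ _ hx
  obtain ⟨T₂, h2, h2c, h2y⟩ := hT _ _ hy
  have hsub : (Sum.inl '' (T₁ ∪ T₂) : Set (X ⊕ C(X, ℝ))) ⊆ A := by
    rintro _ ⟨t, ht, rfl⟩
    rcases ht with ht | ht
    · exact h1 ht
    · exact h2 ht
  obtain ⟨f, hf, hfx, -, -, hsep⟩ := hA.2 _ hsub ((h1c.union h2c).image _)
  have hfix : ∀ z ∈ closure (T₁ ∪ T₂), f z = z := by
    have hcl : IsClosed {z | f z = z} := isClosed_eq hf continuous_id
    intro z hz
    refine closure_minimal (s := T₁ ∪ T₂) ?_ hcl hz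
    intro w hw
    exact hfx w ⟨w, hw, rfl⟩
  have ex := hfix x (closure_mono subset_union_left h1x)
  have ey := hfix y (closure_mono subset_union_right h2y)
  have := hsep x y (by rw [ex, ey]; exact hxy)
  rwa [ex, ey] at this

theorem taskSW : TaskSW := by
  intro X _ _ _ hT A hA φ
  classical
  set K := closure (Pt A) with hK
  have : CompactSpace K := isCompact_iff_compactSpace.1 isClosed_closure.isCompact
  let ι : C(K, X) := ⟨Subtype.val, continuous_subtype_val⟩
  let ρ : C(X, ℝ) →ₐ[ℝ] C(K, ℝ) := ContinuousMap.compRightAlgHom ℝ ℝ ι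
  let M : Submonoid C(X, ℝ) :=
    { carrier := Fn A
      one_mem' := hA.1.1
      mul_mem' := fun {a b} ha hb => hA.1.2 a ha b hb }
  let B : Subalgebra ℝ C(X, ℝ) := Algebra.adjoin ℝ (Fn A)
  have hBspan : ∀ g ∈ B, g ∈ Submodule.span ℝ (Fn A) := by
    intro g hg
    have h1 : g ∈ Subalgebra.toSubmodule (Algebra.adjoin ℝ (Fn A)) := hg
    rw [Algebra.adjoin_eq_span] at h1
    have h2 : Submonoid.closure (Fn A) = M := by
      have : (Fn A) = (M : Set C(X, ℝ)) := rfl
      rw [this, Submonoid.closure_eq]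
    rw [h2] at h1
    exact h1
  have hsep : (B.map ρ).SeparatesPoints := by
    intro x y hxy
    obtain ⟨ψ, hψ, hne⟩ := sep_of_good hT hA x.2 y.2 (fun h => hxy (Subtype.ext h))
    refine ⟨_, ⟨ρ ψ, ⟨ψ, Algebra.subset_adjoin hψ, rfl⟩, rfl⟩, ?_⟩
    exact hne
  have hcl := ContinuousMap.subalgebra_topologicalClosure_eq_top_of_separatesPoints _ hsep
  have hφ : ρ φ ∈ closure ((B.map ρ : Subalgebra ℝ C(K, ℝ)) : Set C(K, ℝ)) := by
    rw [← Subalgebra.topologicalClosure_coe, hcl]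
    trivial
  have happ : ∀ n : ℕ, ∃ h ∈ B, ‖ρ φ - ρ h‖ < 1 / ((n : ℝ) + 1) := by
    intro n
    obtain ⟨g, hg, hd⟩ := Metric.mem_closure_iff.1 hφ (1 / ((n : ℝ) + 1)) (by positivity)
    obtain ⟨h, hh, rfl⟩ := hg
    refine ⟨h, hh, ?_⟩
    rw [dist_eq_norm] at hd
    exact hd
  choose h hh hn using happ
  have hfin : ∀ n, ∃ T : Finset C(X, ℝ), (T : Set C(X, ℝ)) ⊆ Fn A ∧
      h n ∈ Submodule.span ℝ (T : Set C(X, ℝ)) := fun n =>
    Submodule.mem_span_finite_of_mem_span (hBspan _ (hh n))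
  choose T hTs hTm using hfin
  refine ⟨⋃ n, (T n : Set C(X, ℝ)), iUnion_subset hTs,
    countable_iUnion fun n => (T n).countable_toSet, ?_⟩
  intro μ hμ hΦ
  let L : C(X, ℝ) →ₗ[ℝ] ℝ :=
    { toFun := ev μ
      map_add' := by
        intro a b
        unfold ev Finsupp.sum
        rw [← Finset.sum_add_distrib]
        refine Finset.sum_congr rfl fun x _ => ?_
        change μ x * (a x + b x) = μ x * a x + μ x * b x
        ring
      map_smul' := by
        intro c a
        unfold ev Finsupp.sum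
        rw [RingHom.id_apply, smul_eq_mul, Finset.mul_sum]
        refine Finset.sum_congr rfl fun x _ => ?_
        change μ x * (c * a x) = c * (μ x * a x)
        ring }
  have hL : ∀ n, ev μ (h n) = 0 := by
    intro n
    have h1 : Submodule.span ℝ (T n : Set C(X, ℝ)) ≤ LinearMap.ker L := by
      rw [Submodule.span_le]
      intro ψ hψ
      exact hΦ ψ (mem_iUnion.2 ⟨n, hψ⟩)
    exact h1 (hTm n)
  have hb : ∀ n : ℕ, |ev μ φ| ≤ (∑ x ∈ μ.support, |μ x|) * (1 / ((n : ℝ) + 1)) := by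
    intro n
    have e1 : ev μ φ = L (φ - h n) := by
      rw [map_sub]
      change ev μ φ = ev μ φ - ev μ (h n)
      rw [hL, sub_zero]
    rw [e1]
    change |∑ x ∈ μ.support, μ x * (φ - h n) x| ≤ _
    refine (Finset.abs_sum_le_sum_abs _ _).trans ?_
    rw [Finset.sum_mul]
    refine Finset.sum_le_sum fun x hx => ?_
    rw [abs_mul]
    refine mul_le_mul_of_nonneg_left ?_ (abs_nonneg _)
    have h2 := ContinuousMap.norm_coe_le_norm (ρ φ - ρ (h n)) ⟨x, hμ x hx⟩
    exact (h2.trans (hn n).le)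
  have hlim : Tendsto (fun n : ℕ => (∑ x ∈ μ.support, |μ x|) * (1 / ((n : ℝ) + 1))) atTop
      (𝓝 0) := by
    have := (tendsto_one_div_add_atTop_nhds_zero_nat (𝕜 := ℝ)).const_mul
      (∑ x ∈ μ.support, |μ x|)
    rwa [mul_zero] at this
  exact abs_nonpos_iff.1 (ge_of_tendsto' hlim hb)

end Pool.Agent.H162R3.SK
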