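import Pool.Agent.H162R3.SK.Stmts

/-!
# H162-SK: TaskStep
-/

set_option autoImplicit false

open Set Cardinal

namespace Pool.Agent.H345SK

open Pool.Agent.H162R3.SK

section aux

variable {X : Type} [TopologicalSpace X]

theorem ev_sub' (μ ν : X →₀ ℝ) (φ : C(X, ℝ)) : ev (μ - ν) φ = ev μ φ - ev ν φ := by
  unfold ev
  exact Finsupp.sum_sub_index (fun a b₁ b₂ => sub_mul _ _ _)

theorem ev_zero' (μ : X →₀ ℝ) (φ : C(X, ℝ)) (h : ∀ x ∈ μ.support, φ x = 0) : ev μ φ = 0 := by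
  unfold ev
  exact Finset.sum_eq_zero fun x hx => by
    simp only
    rw [h x hx, mul_zero]

theorem Pt_mono' {A B : Set (X ⊕ C(X, ℝ))} (h : A ⊆ B) : Pt A ⊆ Pt B := fun _ hx => h hx

theorem Fn_mono' {A B : Set (X ⊕ C(X, ℝ))} (h : A ⊆ B) : Fn A ⊆ Fn B := fun _ hx => h hx

theorem Cap_mono' {T A A' : Set (X ⊕ C(X, ℝ))} (h : A ⊆ A') (hc : Cap T A) : Cap T A' := by
  obtain ⟨f, h1, h2, h3, h4, h5⟩ := hc
  refine ⟨f, h1, h2, h3, fun x => closure_mono (Pt_mono' h) (h4 x), fun x y hxy => ?_⟩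
  obtain ⟨ψ, hψ, hne⟩ := h5 x y hxy
  exact ⟨ψ, Fn_mono' h hψ, hne⟩

theorem zero_on_closure {S : Set X} {φ : C(X, ℝ)} (h : ∀ x ∈ S, φ x = 0) :
    ∀ x ∈ closure S, φ x = 0 := by
  have hc : IsClosed {x | φ x = 0} := isClosed_eq φ.continuous continuous_const
  exact fun x hx => closure_minimal (fun y hy => h y hy) hc hx

end aux

/-- Inside a lower set of a well-order. -/
theorem exists_J {W : Type} [LinearOrder W] [WellFoundedLT W] (Bad : Set W)
    (hB : ¬ Bad.Countable) : ∃ J : Set W, ¬ (Bad ∩ J).Countable ∧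
      ∀ ζ ∈ J, (Bad ∩ Iic ζ).Countable := by
  have hIic : ∀ ζ : W, (Bad ∩ Iio ζ).Countable → (Bad ∩ Iic ζ).Countable := by
    intro ζ h
    refine (h.union (countable_singleton ζ)).mono ?_
    rintro x ⟨hx1, hx2⟩
    rcases (mem_Iic.mp hx2).lt_or_eq with h3 | h3
    · exact Or.inl ⟨hx1, h3⟩
    · exact Or.inr h3
  by_cases hex : ∃ η, ¬ (Bad ∩ Iio η).Countable
  · set S : Set W := {η | ¬ (Bad ∩ Iio η).Countable} with hS
    have hSne : S.Nonempty := hex
    set η0 := WellFounded.min (wellFounded_lt (α := W)) S hSne with hη0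
    have hmem : η0 ∈ S := WellFounded.min_mem _ S hSne
    refine ⟨Iio η0, hmem, fun ζ hζ => hIic ζ ?_⟩
    by_contra hcon
    exact WellFounded.not_lt_min (wellFounded_lt (α := W)) S (x := ζ) hcon hζ
  · push Not at hex
    refine ⟨univ, by rwa [inter_univ], fun ζ _ => hIic ζ (hex ζ)⟩

theorem taskStep : TaskStep := by
  classical
  intro X _ _ _ hSW W _ _ G hG hMul hCap I m hFam R hCorr hRc
  have hmono : ∀ ζ η : W, ζ ≤ η → G ζ ⊆ G η := by
    intro ζ η h
    rcases h.lt_or_eq with h | h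
    · exact fun x hx => hG η (mem_biUnion (mem_Iio.mpr h) hx)
    · rw [h]
  have hGU : ∀ η, G η ⊆ ⋃ η, G η := fun η => subset_iUnion G η
  have hAU : ∀ η, (⋃ ζ ∈ Iio η, G ζ) ⊆ ⋃ η, G η := fun η => (hG η).trans (hGU η)
  -- supports
  have hsupp : ∀ η (i : I η), ∀ x ∈ (m η i - R η (m η i)).support, x ∈ closure (Pt (G η)) := by
    intro η i x hx
    have h1 := Finsupp.support_sub hx
    rcases Finset.mem_union.mp h1 with h1 | h1
    · exact (hFam η).1 i x h1
    · exact closure_mono (Pt_mono' (hG η)) ((hCorr η).1 (m η i) x h1)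
  refine ⟨fun p x hx => closure_mono (Pt_mono' (hGU p.1)) (hsupp p.1 p.2 x hx), ?_, ?_⟩
  · -- countability
    intro φ
    set Bad : Set W := {η | ∃ i, ev (m η i - R η (m η i)) φ ≠ 0} with hBad
    have hfib : ∀ η, {i : I η | ev (m η i - R η (m η i)) φ ≠ 0}.Countable := by
      intro η
      refine (((hFam η).2.1 φ).union (hRc η φ)).mono ?_
      intro i hi
      by_contra hcon
      rw [mem_union, not_or] at hcon
      apply hi
      rw [ev_sub', not_not.mp hcon.1, not_not.mp hcon.2, sub_zero]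
    have hBadc : Bad.Countable := by
      by_contra hB
      obtain ⟨J, hJ1, hJ2⟩ := exists_J Bad hB
      have hstar : ∀ Z : Set W, Z ⊆ J → Z.Countable → ∃ ζ ∈ J, ∀ z ∈ Z, z < ζ := by
        intro Z hZJ hZ
        by_contra hcon
        push Not at hcon
        apply hJ1
        refine (hZ.biUnion fun z hz => hJ2 z (hZJ hz)).mono ?_
        rintro x ⟨hx1, hx2⟩
        obtain ⟨z, hz, hxz⟩ := hcon x hx2
        exact mem_biUnion hz ⟨hx1, hxz⟩
      have hJne : (Bad ∩ J).Nonempty := by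
        by_contra hcon
        rw [not_nonempty_iff_eq_empty] at hcon
        rw [hcon] at hJ1
        exact hJ1 countable_empty
      set A : Set (X ⊕ C(X, ℝ)) := ⋃ ζ ∈ J, G ζ with hA
      have hGA : ∀ ζ ∈ J, G ζ ⊆ A := fun ζ hζ x hx => mem_biUnion hζ hx
      -- countable subsets are captured below some index
      have hcount : ∀ T ⊆ A, T.Countable → ∃ ζ ∈ J, T ⊆ ⋃ ξ ∈ Iio ζ, G ξ := by
        intro T hT hTc
        have h1 : ∀ t : T, ∃ ζ ∈ J, (t : X ⊕ C(X, ℝ)) ∈ G ζ := by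
          intro t
          have := hT t.2
          rw [hA, mem_iUnion₂] at this
          obtain ⟨ζ, hζ, ht⟩ := this
          exact ⟨ζ, hζ, ht⟩
        choose z hzJ hz using h1
        haveI : Countable T := hTc.to_subtype
        obtain ⟨ζ, hζ, hlt⟩ := hstar (range z) (by rintro _ ⟨t, rfl⟩; exact hzJ t)
          (countable_range z)
        refine ⟨ζ, hζ, fun t ht => ?_⟩
        exact mem_biUnion (mem_Iio.mpr (hlt (z ⟨t, ht⟩) ⟨_, rfl⟩)) (hz ⟨t, ht⟩)
      have hgood : Good A := by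
        refine ⟨⟨?_, ?_⟩, ?_⟩
        · obtain ⟨η, _, hη⟩ := hJne
          exact Fn_mono' (hGA η hη) (hMul η).1
        · intro φ' hφ' ψ hψ
          have h1 : Sum.inr φ' ∈ A := hφ'
          have h2 : Sum.inr ψ ∈ A := hψ
          rw [hA, mem_iUnion₂] at h1 h2
          obtain ⟨ζ1, hζ1, h1⟩ := h1
          obtain ⟨ζ2, hζ2, h2⟩ := h2
          rcases le_total ζ1 ζ2 with h | h
          · exact Fn_mono' (hGA ζ2 hζ2) ((hMul ζ2).2 φ' (hmono ζ1 ζ2 h h1) ψ h2)
          · exact Fn_mono' (hGA ζ1 hζ1) ((hMul ζ1).2 φ' h1 ψ (hmono ζ2 ζ1 h h2))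
        · intro T hT hTc
          obtain ⟨ζ, hζ, hTζ⟩ := hcount T hT hTc
          exact Cap_mono' (hGA ζ hζ) (hCap ζ T hTζ hTc)
      obtain ⟨Φ, hΦ, hΦc, hΦe⟩ := hSW A hgood φ
      obtain ⟨ζ0, hζ0, hΦ0⟩ := hcount (Sum.inr '' Φ)
        (by rintro _ ⟨ψ, hψ, rfl⟩; exact hΦ hψ) (hΦc.image _)
      -- a bad index above
      obtain ⟨η, ⟨hηB, hηJ⟩, hη⟩ : ∃ η ∈ Bad ∩ J, ζ0 ≤ η := by
        by_contra hcon
        push Not at hcon
        apply hJ1
        refine (hJ2 ζ0 hζ0).mono ?_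
        intro x hx
        exact ⟨hx.1, (hcon x hx).le⟩
      obtain ⟨i, hi⟩ := hηB
      apply hi
      apply hΦe
      · intro x hx
        exact closure_mono (Pt_mono' (hGA η hηJ)) (hsupp η i x hx)
      · intro ψ hψ
        have h1 := hΦ0 ⟨ψ, hψ, rfl⟩
        have h2 : ψ ∈ Fn (⋃ ζ ∈ Iio η, G ζ) := by
          show Sum.inr ψ ∈ ⋃ ζ ∈ Iio η, G ζ
          rw [mem_iUnion₂] at h1 ⊢
          obtain ⟨ξ, hξ, h3⟩ := h1
          exact ⟨ξ, lt_of_lt_of_le hξ hη, h3⟩
        rw [ev_sub', (hCorr η).2 (m η i) ψ h2, sub_self]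
    refine (hBadc.biUnion (t := fun η _ => Sigma.mk η '' {i : I η | ev (m η i - R η (m η i)) φ ≠ 0})
      fun η _ => (hfib η).image _).mono ?_
    rintro ⟨η, i⟩ hp
    exact mem_biUnion (show η ∈ Bad from ⟨i, hp⟩) ⟨i, hp, rfl⟩
  · -- separation
    intro φ hφ x hx
    have hall : ∀ η : W, ∀ y ∈ Pt (G η), φ y = 0 := by
      intro η
      induction η using WellFoundedLT.induction with
      | ind η ih =>
        have h1 : ∀ y ∈ closure (Pt (⋃ ζ ∈ Iio η, G ζ)), φ y = 0 := by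
          apply zero_on_closure
          intro y hy
          have hy' : Sum.inl y ∈ ⋃ ζ ∈ Iio η, G ζ := hy
          rw [mem_iUnion₂] at hy'
          obtain ⟨ζ, hζ, h2⟩ := hy'
          exact ih ζ hζ y h2
        apply (hFam η).2.2 φ
        intro i
        have h2 := hφ ⟨η, i⟩
        simp only at h2
        rw [ev_sub', ev_zero' (R η (m η i)) φ fun y hy => h1 y ((hCorr η).1 _ y hy),
          sub_zero] at h2
        exact h2
    have hx' : Sum.inl x ∈ ⋃ η, G η := hx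
    rw [mem_iUnion] at hx'
    obtain ⟨η, h⟩ := hx'
    exact hall η x h

end Pool.Agent.H345SK
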