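import Pool.Agent.H162R3.SK.Stmts

/-! H162-SK, TASK TIGHT: Sokolov compact spaces have countable tightness (helper142). -/

set_option autoImplicit false

open Set Cardinal

namespace Pool.Agent.H162R3.SK.TightN

open Pool.Agent.H162R3.SK

/-- a well-order of type `ω₁` -/
theorem exists_W : ∃ (W : Type) (_ : LinearOrder W) (_ : WellFoundedLT W),
    (∀ a : W, (Iio a).Countable) ∧ ¬ (univ : Set W).Countable := by
  refine ⟨(ℵ₁ : Cardinal.{0}).ord.ToType, inferInstance, inferInstance, fun a => ?_, ?_⟩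
  · rw [countable_iff_lt_aleph_one]
    exact mk_Iio_toType_ord_lt a
  · rw [countable_iff_lt_aleph_one, mk_univ, mk_ord_toType]
    exact lt_irrefl _

section W

variable {W : Type} [LinearOrder W]

theorem countable_Iic (hW : ∀ a : W, (Iio a).Countable) (a : W) : (Iic a).Countable := by
  have : Iic a = insert a (Iio a) := by
    ext b; simp [le_iff_eq_or_lt]
  rw [this]; exact (hW a).insert a

theorem exists_above (hW : ∀ a : W, (Iio a).Countable) (hu : ¬ (univ : Set W).Countable)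
    (S : Set W) (hS : S.Countable) : ∃ γ : W, ∀ s ∈ S, s < γ := by
  by_contra hcon
  push Not at hcon
  apply hu
  refine (hS.biUnion fun s _ => countable_Iic hW s).mono ?_
  intro γ _
  obtain ⟨s, hs, h⟩ := hcon γ
  exact mem_biUnion hs h

end W

variable {X : Type} [TopologicalSpace X] [CompactSpace X] [T2Space X]

theorem zero_meet (B : Set X) (hB : ∀ C ⊆ B, C.Countable → closure C ⊆ B) (p : X)
    (hp : p ∈ closure B) (G : Set C(X, ℝ)) (hG : G.Countable) (hG0 : ∀ g ∈ G, g p = 0) :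
    ∃ b ∈ B, ∀ g ∈ G, g b = 0 := by
  rcases G.eq_empty_or_nonempty with rfl | hne
  · have : B.Nonempty := by
      rw [← closure_nonempty_iff]; exact ⟨p, hp⟩
    obtain ⟨b, hb⟩ := this
    exact ⟨b, hb, by simp⟩
  obtain ⟨g, rfl⟩ := hG.exists_eq_range hne
  have hpos : ∀ n : ℕ, (0 : ℝ) < 1 / ((n : ℝ) + 1) := fun n => by positivity
  have h1 : ∀ n : ℕ, ∃ b ∈ B, ∀ i ≤ n, |g i b| < 1 / ((n : ℝ) + 1) := by
    intro n
    have hU : IsOpen (⋂ i ∈ Iic n, {x : X | |g i x| < 1 / ((n : ℝ) + 1)}) :=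
      (finite_Iic n).isOpen_biInter fun i _ =>
        isOpen_lt ((g i).continuous.abs) continuous_const
    have hpU : p ∈ ⋂ i ∈ Iic n, {x : X | |g i x| < 1 / ((n : ℝ) + 1)} := by
      refine mem_iInter₂.2 fun i _ => ?_
      show |g i p| < _
      rw [hG0 _ ⟨i, rfl⟩, abs_zero]
      exact hpos n
    obtain ⟨b, hb1, hb2⟩ := mem_closure_iff.1 hp _ hU hpU
    exact ⟨b, hb2, fun i hi => mem_iInter₂.1 hb1 i hi⟩
  choose b hbB hb using h1
  set t : ℕ → Set X := fun n => closure (range b) ∩ {x | ∀ i ≤ n, |g i x| ≤ 1 / ((n : ℝ) + 1)}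
    with ht
  have hcl : ∀ n, IsClosed (t n) := by
    intro n
    refine isClosed_closure.inter ?_
    have : {x : X | ∀ i ≤ n, |g i x| ≤ 1 / ((n : ℝ) + 1)} =
        ⋂ i, ⋂ (_ : i ≤ n), {x : X | |g i x| ≤ 1 / ((n : ℝ) + 1)} := by
      ext x; simp
    rw [this]
    exact isClosed_iInter fun i => isClosed_iInter fun _ =>
      isClosed_le ((g i).continuous.abs) continuous_const
  have hne2 : (⋂ n, t n).Nonempty := by
    apply IsCompact.nonempty_iInter_of_sequence_nonempty_isCompact_isClosed t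
    · intro n x hx
      refine ⟨hx.1, fun i hi => (hx.2 i (by omega)).trans ?_⟩
      push_cast
      apply one_div_le_one_div_of_le
      · positivity
      · linarith
    · intro n
      exact ⟨b n, subset_closure ⟨n, rfl⟩, fun i hi => (hb n i hi).le⟩
    · exact (hcl 0).isCompact
    · exact hcl
  obtain ⟨c, hc⟩ := hne2
  rw [mem_iInter] at hc
  refine ⟨c, hB (range b) (range_subset_iff.2 hbB) (countable_range b) (hc 0).1, ?_⟩
  rintro _ ⟨i, rfl⟩
  by_contra h
  have h2 : 0 < |g i c| := abs_pos.2 h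
  obtain ⟨n, hn⟩ := exists_nat_one_div_lt h2
  have h3 := (hc (max i n)).2 i (le_max_left _ _)
  have h4 : 1 / (((max i n : ℕ) : ℝ) + 1) ≤ 1 / ((n : ℝ) + 1) := by
    apply one_div_le_one_div_of_le
    · positivity
    · have : (n : ℝ) ≤ ((max i n : ℕ) : ℝ) := by exact_mod_cast le_max_right i n
      linarith
  linarith

theorem step (B : Set X) (hB : ∀ C ⊆ B, C.Countable → closure C ⊆ B) (p : X)
    (hp : p ∈ closure B) (hpB : p ∉ B) (S : Set {q : C(X, ℝ) × X // q.1 p = 0 ∧ q.2 ∈ B})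
    (hS : S.Countable) : ∃ q : {q : C(X, ℝ) × X // q.1 p = 0 ∧ q.2 ∈ B},
      (∀ s ∈ S, q.1.1 s.1.2 = 1) ∧ (∀ s ∈ S, s.1.1 q.1.2 = 0) ∧ q.1.1 q.1.2 = 0 := by
  set C : Set X := (fun s : {q : C(X, ℝ) × X // q.1 p = 0 ∧ q.2 ∈ B} => s.1.2) '' S with hC
  have hCB : closure C ⊆ B := hB C (by rintro _ ⟨s, _, rfl⟩; exact s.2.2) (hS.image _)
  have hd : Disjoint {p} (closure C) := by
    rw [disjoint_singleton_left]; exact fun h => hpB (hCB h)
  obtain ⟨g, hg0, hg1, -⟩ := exists_continuous_zero_one_of_isClosed isClosed_singleton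
    isClosed_closure hd
  have hgp : g p = 0 := hg0 (mem_singleton p)
  obtain ⟨b, hbB, hb⟩ := zero_meet B hB p hp
    (insert g ((fun s : {q : C(X, ℝ) × X // q.1 p = 0 ∧ q.2 ∈ B} => s.1.1) '' S))
    ((hS.image _).insert g) (by
      rintro _ (rfl | ⟨s, _, rfl⟩)
      · exact hgp
      · exact s.2.1)
  refine ⟨⟨(g, b), hgp, hbB⟩, ?_, ?_, ?_⟩
  · intro s hs
    exact hg1 (subset_closure ⟨s, hs, rfl⟩)
  · intro s hs
    exact hb _ (mem_insert_of_mem _ ⟨s, hs, rfl⟩)
  · exact hb _ (mem_insert _ _)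

/-- the free sequence -/
theorem free_seq {W : Type} [LinearOrder W] [WellFoundedLT W] (hW : ∀ a : W, (Iio a).Countable)
    (B : Set X) (hB : ∀ C ⊆ B, C.Countable → closure C ⊆ B) (p : X)
    (hp : p ∈ closure B) (hpB : p ∉ B) : ∃ (x : W → X) (g : W → C(X, ℝ)),
      (∀ a b, b < a → g a (x b) = 1) ∧ ∀ a b, b ≤ a → g b (x a) = 0 := by
  classical
  let P := {q : C(X, ℝ) × X // q.1 p = 0 ∧ q.2 ∈ B}
  have hst : ∀ (a : W) (ih : ∀ b, b < a → P), ∃ q : P,
      (∀ b (hb : b < a), q.1.1 (ih b hb).1.2 = 1) ∧ (∀ b (hb : b < a), (ih b hb).1.1 q.1.2 = 0) ∧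
        q.1.1 q.1.2 = 0 := by
    intro a ih
    have hc : (range fun b : Iio a => ih b.1 b.2).Countable := by
      haveI : Countable (Iio a) := (hW a).to_subtype
      exact countable_range _
    obtain ⟨q, h1, h2, h3⟩ := step B hB p hp hpB _ hc
    exact ⟨q, fun b hb => h1 _ ⟨⟨b, hb⟩, rfl⟩, fun b hb => h2 _ ⟨⟨b, hb⟩, rfl⟩, h3⟩
  let F : ∀ a : W, (∀ b, b < a → P) → P := fun a ih => (hst a ih).choose
  have hF : ∀ (a : W) (ih : ∀ b, b < a → P),
      (∀ b (hb : b < a), (F a ih).1.1 (ih b hb).1.2 = 1) ∧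
      (∀ b (hb : b < a), (ih b hb).1.1 (F a ih).1.2 = 0) ∧ (F a ih).1.1 (F a ih).1.2 = 0 :=
    fun a ih => (hst a ih).choose_spec
  let h : W → P := (wellFounded_lt (α := W)).fix F
  have hh : ∀ a, h a = F a fun b _ => h b := fun a => (wellFounded_lt (α := W)).fix_eq F a
  refine ⟨fun a => (h a).1.2, fun a => (h a).1.1, ?_, ?_⟩
  · intro a b hb
    show (h a).1.1 (h b).1.2 = 1
    rw [hh a]
    exact (hF a fun b _ => h b).1 b hb
  · intro a b hb
    show (h b).1.1 (h a).1.2 = 0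
    rcases eq_or_lt_of_le hb with rfl | hb
    · have := (hF b fun c _ => h c).2.2
      rw [← hh b] at this
      exact this
    · rw [hh a]
      exact (hF a fun b _ => h b).2.1 b hb

theorem sok_pairs (hX : Sok X) (E : ℕ → Set (X × X)) (hE : ∀ k, IsClosed (E k)) :
    ∃ f : X → X, Continuous f ∧
      (∃ N : Set (Set X), N.Countable ∧
        ∀ x ∈ Set.range f, ∀ U : Set X, IsOpen U → x ∈ U →
          ∃ A ∈ N, x ∈ A ∧ A ⊆ U ∩ Set.range f) ∧
      ∀ k, ∀ q ∈ E k, (f q.1, f q.2) ∈ E k := by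
  let F : (n : ℕ) → Set (Fin n → X) := fun n => match n with
    | 0 => univ
    | 1 => univ
    | (k + 2) => {x | (x 0, x 1) ∈ E k}
  have hF : ∀ n, IsClosed (F n) := by
    intro n
    match n with
    | 0 => exact isClosed_univ
    | 1 => exact isClosed_univ
    | (k + 2) =>
      exact (hE k).preimage ((continuous_apply 0).prodMk (continuous_apply 1))
  obtain ⟨f, hf, hN, h⟩ := hX F hF
  refine ⟨f, hf, hN, fun k q hq => ?_⟩
  have h1 := h (k + 2) (fun i => if i = 0 then q.1 else q.2) (by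
    show ((if (0 : Fin (k + 2)) = 0 then q.1 else q.2), (if (1 : Fin (k + 2)) = 0 then q.1 else q.2)) ∈ E k
    simpa using hq)
  have h2 : (f (if (0 : Fin (k + 2)) = 0 then q.1 else q.2),
    f (if (1 : Fin (k + 2)) = 0 then q.1 else q.2)) ∈ E k := h1
  simpa using h2

theorem main (hX : Sok X) {W : Type} [LinearOrder W] [WellFoundedLT W]
    (hW : ∀ a : W, (Iio a).Countable) (hu : ¬ (univ : Set W).Countable)
    (x : W → X) (g : W → C(X, ℝ)) (h1 : ∀ a b, b < a → g a (x b) = 1)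
    (h0 : ∀ a b, b ≤ a → g b (x a) = 0) : False := by
  classical
  set L : W → Set X := fun a => closure (x '' Iio a) with hL
  set L' : W → Set X := fun a => closure (x '' Iic a) with hL'
  set R : W → Set X := fun a => closure (x '' Ici a) with hR
  set Y : Set X := closure (range x) with hY
  have hLg : ∀ a, ∀ y ∈ L a, g a y = 1 := by
    intro a
    have hcl : IsClosed {y : X | g a y = 1} := isClosed_eq (g a).continuous continuous_const
    exact fun y hy => closure_minimal (by rintro _ ⟨b, hb, rfl⟩; exact h1 a b hb) hcl hy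
  have hRg : ∀ a, ∀ y ∈ R a, g a y = 0 := by
    intro a
    have hcl : IsClosed {y : X | g a y = 0} := isClosed_eq (g a).continuous continuous_const
    exact fun y hy => closure_minimal (by rintro _ ⟨b, hb, rfl⟩; exact h0 b a hb) hcl hy
  have hdisj : ∀ a y, y ∈ L a → y ∈ R a → False := by
    intro a y hl hr
    have := hLg a y hl
    rw [hRg a y hr] at this
    exact zero_ne_one this
  have hYu : ∀ a y, y ∈ Y → y ∈ L a ∨ y ∈ R a := by
    intro a y hy
    have : range x = x '' Iio a ∪ x '' Ici a := by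
      rw [← image_union, Iio_union_Ici, image_univ]
    rw [hY, this, closure_union] at hy
    exact hy
  have hLmono : ∀ a b, a ≤ b → L a ⊆ L b := fun a b hab =>
    closure_mono (image_mono (Iio_subset_Iio hab))
  have hRanti : ∀ a b, a ≤ b → R b ⊆ R a := fun a b hab =>
    closure_mono (image_mono (Ici_subset_Ici.2 hab))
  have hL'L : ∀ a b, a < b → L' a ⊆ L b := fun a b hab =>
    closure_mono (image_mono (fun c hc => lt_of_le_of_lt hc hab))
  have hxY : ∀ a, x a ∈ Y := fun a => subset_closure ⟨a, rfl⟩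
  set RR : Set X := ⋂ a, R a with hRR
  have hRRcl : IsClosed RR := isClosed_iInter fun a => isClosed_closure
  obtain ⟨o⟩ : Nonempty W := by
    by_contra hne
    rw [not_nonempty_iff] at hne
    exact hu (by simp [Set.eq_empty_of_isEmpty])
  set Fc : Set (X × X) := {q | q.1 ∈ Y ∧ q.2 ∈ Y ∧ ∀ a, q.1 ∈ R a ∨ q.2 ∈ L' a} with hFc
  have hFcl : IsClosed Fc := by
    have e : Fc = (Prod.fst ⁻¹' Y) ∩ ((Prod.snd ⁻¹' Y) ∩
        ⋂ a, ((Prod.fst ⁻¹' R a) ∪ (Prod.snd ⁻¹' L' a))) := by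
      ext q; simp [hFc]
    rw [e]
    exact (isClosed_closure.preimage continuous_fst).inter
      ((isClosed_closure.preimage continuous_snd).inter (isClosed_iInter fun a =>
        (isClosed_closure.preimage continuous_fst).union (isClosed_closure.preimage continuous_snd)))
  let E : ℕ → Set (X × X) := fun k => if k = 0 then Prod.fst ⁻¹' {x o} else
    if k = 1 then Prod.fst ⁻¹' Y else if k = 2 then Prod.fst ⁻¹' RR else Fc
  have hE : ∀ k, IsClosed (E k) := by
    intro k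
    show IsClosed (if k = 0 then Prod.fst ⁻¹' {x o} else
      if k = 1 then Prod.fst ⁻¹' Y else if k = 2 then Prod.fst ⁻¹' RR else Fc)
    split_ifs
    · exact isClosed_singleton.preimage continuous_fst
    · exact isClosed_closure.preimage continuous_fst
    · exact hRRcl.preimage continuous_fst
    · exact hFcl
  obtain ⟨f, hf, ⟨N, hNc, hN⟩, hfE⟩ := sok_pairs hX E hE
  have hfo : f (x o) = x o := hfE 0 (x o, x o) (by show x o = x o; rfl)
  have hfY : ∀ y ∈ Y, f y ∈ Y := fun y hy => hfE 1 (y, y) hy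
  have hfR : ∀ y ∈ RR, f y ∈ RR := fun y hy => hfE 2 (y, y) hy
  have hfF : ∀ y y', (y, y') ∈ Fc → (f y, f y') ∈ Fc := fun y y' hy => hfE 3 (y, y') hy
  -- a countable dense subset of `f '' Y`
  have hdense : ∃ D : Set X, D.Countable ∧ D ⊆ f '' Y ∧ f '' Y ⊆ closure D := by
    let pick : Set X → X := fun A => if h : (A ∩ f '' Y).Nonempty then h.some else x o
    refine ⟨pick '' {A ∈ N | (A ∩ f '' Y).Nonempty}, (hNc.mono (sep_subset _ _)).image _, ?_, ?_⟩
    · rintro _ ⟨A, ⟨_, hA⟩, rfl⟩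
      simp only [pick, dif_pos hA]
      exact hA.some_mem.2
    · intro z hz
      rw [mem_closure_iff]
      intro U hU hzU
      have hzr : z ∈ range f := by
        obtain ⟨y, _, rfl⟩ := hz; exact ⟨y, rfl⟩
      obtain ⟨A, hAN, hzA, hAU⟩ := hN z hzr U hU hzU
      have hA : (A ∩ f '' Y).Nonempty := ⟨z, hzA, hz⟩
      refine ⟨pick A, ?_, ⟨A, ⟨hAN, hA⟩, rfl⟩⟩
      simp only [pick, dif_pos hA]
      exact (hAU hA.some_mem.1).1
  obtain ⟨D, hDc, hDY, hYD⟩ := hdense
  -- bound γ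
  have hDW : ∀ d : X, ∃ a : W, d ∈ D → d ∉ RR → d ∈ L a := by
    intro d
    by_cases hd : d ∈ D ∧ d ∉ RR
    · have h2 := hd.2
      rw [hRR, mem_iInter] at h2
      push Not at h2
      obtain ⟨a, ha⟩ := h2
      refine ⟨a, fun _ _ => ?_⟩
      obtain ⟨y, hy, hyd⟩ := hDY hd.1
      rcases hYu a d (by rw [← hyd]; exact hfY y hy) with h | h
      · exact h
      · exact absurd h ha
    · exact ⟨o, fun h3 h4 => absurd ⟨h3, h4⟩ hd⟩
  choose w hw using hDW
  obtain ⟨γ, hγ⟩ := exists_above hW hu (insert o (w '' D)) ((hDc.image w).insert o)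
  have hγo : o < γ := hγ o (mem_insert _ _)
  have hDsub : D ⊆ L γ ∪ RR := by
    intro d hd
    by_cases hr : d ∈ RR
    · exact Or.inr hr
    · exact Or.inl (hLmono _ _ (hγ _ (mem_insert_of_mem _ ⟨d, hd, rfl⟩)).le (hw d hd hr))
  have hfYsub : ∀ y ∈ Y, f y ∈ L γ ∪ RR := fun y hy =>
    closure_minimal hDsub (isClosed_closure.union hRRcl) (hYD ⟨y, hy, rfl⟩)
  set Z : Set X := Y ∩ f ⁻¹' (L γ) with hZ
  have hZcl : IsClosed Z := isClosed_closure.inter (isClosed_closure.preimage hf)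
  have hRRsub : ∀ a, RR ⊆ R a := fun a => iInter_subset _ a
  have hZmem : ∀ y ∈ Y, f y ∉ RR → y ∈ Z := by
    intro y hy hn
    rcases hfYsub y hy with h | h
    · exact ⟨hy, h⟩
    · exact absurd h hn
  have hoZ : x o ∈ Z := ⟨hxY o, by
    show f (x o) ∈ L γ
    rw [hfo]
    exact subset_closure ⟨o, hγo, rfl⟩⟩
  -- Z ⊆ L α for some α
  have hZR : ∃ a, Z ⊆ L a := by
    by_contra hcon
    push Not at hcon
    have hne : (Z ∩ ⋂ a, R a).Nonempty := by
      apply hZcl.isCompact.inter_iInter_nonempty _ (fun a => isClosed_closure)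
      intro u
      obtain ⟨a, ha⟩ := exists_above hW hu (u : Set W) u.countable_toSet
      obtain ⟨z, hz, hzL⟩ := not_subset.1 (hcon a)
      refine ⟨z, hz, mem_iInter₂.2 fun b hb => ?_⟩
      have hzR : z ∈ R a := (hYu a z hz.1).resolve_left hzL
      exact hRanti b a (ha b hb).le hzR
    obtain ⟨z, hz, hzR⟩ := hne
    exact hdisj γ (f z) hz.2 (hRRsub γ (hfR z hzR))
  obtain ⟨α, hα, hmin⟩ := (wellFounded_lt (α := W)).has_min {a | Z ⊆ L a} hZR
  have hmin' : ∀ b, b < α → ∃ z ∈ Z, z ∈ R b := by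
    intro b hb
    have hnb : ¬ Z ⊆ L b := fun h => hmin b h hb
    obtain ⟨z, hz, hzL⟩ := not_subset.1 hnb
    exact ⟨z, hz, (hYu b z hz.1).resolve_left hzL⟩
  obtain ⟨y, hyZ, hy⟩ : (Z ∩ ⋂ b : Iio α, R b.1).Nonempty := by
    apply hZcl.isCompact.inter_iInter_nonempty _ (fun a => isClosed_closure)
    intro u
    rcases u.eq_empty_or_nonempty with rfl | hu'
    · exact ⟨x o, hoZ, by simp⟩
    · obtain ⟨z, hz, hzR⟩ := hmin' (u.max' hu').1 (u.max' hu').2
      refine ⟨z, hz, mem_iInter₂.2 fun b hb => ?_⟩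
      exact hRanti _ _ (Subtype.coe_le_coe.2 (u.le_max' b hb)) hzR
  rw [mem_iInter] at hy
  have hyF : (y, x α) ∈ Fc := by
    refine ⟨hyZ.1, hxY α, fun b => ?_⟩
    rcases lt_or_ge b α with hb | hb
    · exact Or.inl (hy ⟨b, hb⟩)
    · exact Or.inr (subset_closure ⟨α, hb, rfl⟩)
  have hfyF := hfF _ _ hyF
  have hxL' : f (x α) ∈ L' γ := by
    rcases hfyF.2.2 γ with h | h
    · exact (hdisj γ _ hyZ.2 h).elim
    · exact h
  obtain ⟨γ', hγ'⟩ := exists_above hW hu {γ} (countable_singleton γ)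
  have hγγ' : γ < γ' := hγ' γ rfl
  have hxnR : f (x α) ∉ RR := fun h => hdisj γ' _ (hL'L γ γ' hγγ' hxL') (hRRsub γ' h)
  have hxZ : x α ∈ Z := hZmem _ (hxY α) hxnR
  exact hdisj α (x α) (hα hxZ) (subset_closure ⟨α, le_rfl, rfl⟩)

theorem taskTight : TaskTight := by
  intro X _ _ _ hX
  by_contra hcon
  unfold Tight at hcon
  push Not at hcon
  obtain ⟨B0, p, hpB0, hp⟩ := hcon
  set B : Set X := {y | ∃ T ⊆ B0, T.Countable ∧ y ∈ closure T} with hBdef
  have hB : ∀ C ⊆ B, C.Countable → closure C ⊆ B := by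
    intro C hC hCc y hy
    have hC' : ∀ c ∈ C, ∃ T : Set X, T ⊆ B0 ∧ T.Countable ∧ c ∈ closure T := fun c hc => hC hc
    choose! T hT1 hT2 hT3 using hC'
    refine ⟨⋃ c ∈ C, T c, iUnion₂_subset fun c hc => hT1 c hc,
      hCc.biUnion fun c hc => hT2 c hc, ?_⟩
    have : C ⊆ closure (⋃ c ∈ C, T c) := fun c hc =>
      closure_mono (subset_biUnion_of_mem hc) (hT3 c hc)
    exact closure_minimal this isClosed_closure hy
  have hB0B : B0 ⊆ B := fun b hb => ⟨{b}, singleton_subset_iff.2 hb, countable_singleton b,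
    subset_closure rfl⟩
  have hpB : p ∉ B := by
    rintro ⟨T, hT, hTc, h⟩
    exact hp T hT hTc h
  obtain ⟨W, _, _, hW, hu⟩ := exists_W
  obtain ⟨x, g, h1, h0⟩ := free_seq (W := W) hW B hB p (closure_mono hB0B hpB0) hpB
  exact main hX hW hu x g h1 h0

end Pool.Agent.H162R3.SK.TightN
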